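import Mathlib

/-!
Counting lattice points in discs: symmetries of the lattice.
-/

set_option autoImplicit false

namespace Q262.Circ

/-- The lattice points in the open disc with centre `(x, y)` and squared radius `s`. -/
def S (x y s : ℝ) : Set (ℤ × ℤ) :=
  {p | ((p.1 : ℝ) - x) ^ 2 + ((p.2 : ℝ) - y) ^ 2 < s}

theorem mem_S {x y s : ℝ} {p : ℤ × ℤ} :
    p ∈ S x y s ↔ ((p.1 : ℝ) - x) ^ 2 + ((p.2 : ℝ) - y) ^ 2 < s := Iff.rfl

theorem S_mono {x y s t : ℝ} (h : s ≤ t) : S x y s ⊆ S x y t :=
  fun _ hp => lt_of_lt_of_le hp h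

/-- The number of lattice points in the open disc with centre `(x, y)` and squared radius `s`. -/
noncomputable def cnt (x y s : ℝ) : ℕ∞ := (S x y s).encard

theorem cnt_mono {x y s t : ℝ} (h : s ≤ t) : cnt x y s ≤ cnt x y t :=
  Set.encard_le_encard (S_mono h)

theorem cnt_image (e : ℤ × ℤ ≃ ℤ × ℤ) {x y x' y' s : ℝ}
    (h : ∀ p, e p ∈ S x' y' s ↔ p ∈ S x y s) : cnt x' y' s = cnt x y s := by
  have h1 : S x' y' s = e '' S x y s := by
    ext q
    constructor
    · intro hq
      exact ⟨e.symm q, (h _).1 (by simpa using hq), by simp⟩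
    · rintro ⟨p, hp, rfl⟩
      exact (h p).2 hp
  rw [cnt, h1, e.injective.encard_image, cnt]

/-- Two centres with the same counts for all radii. -/
def Same (x y x' y' : ℝ) : Prop := ∀ s, cnt x y s = cnt x' y' s

theorem Same.trans {x y x' y' x'' y'' : ℝ} (h : Same x y x' y') (h' : Same x' y' x'' y'') :
    Same x y x'' y'' := fun s => (h s).trans (h' s)

theorem same_add (x y : ℝ) (m n : ℤ) : Same (x + m) (y + n) x y := by
  intro s
  refine cnt_image (Equiv.addRight ((m, n) : ℤ × ℤ)) ?_
  intro p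
  simp only [mem_S, Equiv.coe_addRight, Prod.fst_add, Prod.snd_add]
  push_cast
  rw [show (p.1 : ℝ) + m - (x + m) = p.1 - x by ring, show (p.2 : ℝ) + n - (y + n) = p.2 - y by ring]

theorem same_negx (x y : ℝ) : Same (-x) y x y := by
  intro s
  refine cnt_image (Equiv.prodCongr (Equiv.neg ℤ) (Equiv.refl ℤ)) ?_
  intro p
  simp only [mem_S, Equiv.prodCongr_apply, Prod.map, Equiv.neg_apply, Equiv.refl_apply]
  push_cast
  rw [show (-(p.1 : ℝ) - -x) ^ 2 = (p.1 - x) ^ 2 by ring]

theorem same_negy (x y : ℝ) : Same x (-y) x y := by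
  intro s
  refine cnt_image (Equiv.prodCongr (Equiv.refl ℤ) (Equiv.neg ℤ)) ?_
  intro p
  simp only [mem_S, Equiv.prodCongr_apply, Prod.map, Equiv.neg_apply, Equiv.refl_apply]
  push_cast
  rw [show (-(p.2 : ℝ) - -y) ^ 2 = (p.2 - y) ^ 2 by ring]

theorem same_swap (x y : ℝ) : Same y x x y := by
  intro s
  refine cnt_image (Equiv.prodComm ℤ ℤ) ?_
  intro p
  simp only [mem_S, Equiv.prodComm_apply, Prod.fst_swap, Prod.snd_swap]
  rw [add_comm]

theorem same_absx (x y : ℝ) : Same x y |x| y := by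
  rcases abs_choice x with h | h
  · rw [h]; intro s; rfl
  · rw [h]; intro s; exact (same_negx x y s).symm

theorem same_absy (x y : ℝ) : Same x y x |y| := by
  rcases abs_choice y with h | h
  · rw [h]; intro s; rfl
  · rw [h]; intro s; exact (same_negy x y s).symm

theorem exists_reduced (x y : ℝ) :
    ∃ x' y' : ℝ, 0 ≤ y' ∧ y' ≤ x' ∧ x' ≤ 1 / 2 ∧ Same x y x' y' := by
  have h1 : Same x y |x - round x| |y - round y| := by
    have ha : Same x y (x - round x) (y - round y) := by
      have := same_add (x - round x) (y - round y) (round x) (round y)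
      rwa [sub_add_cancel, sub_add_cancel] at this
    exact ha.trans ((same_absx _ _).trans (same_absy _ _))
  have hx : |x - round x| ≤ 1 / 2 := abs_sub_round x
  have hy : |y - round y| ≤ 1 / 2 := abs_sub_round y
  rcases le_total |y - round y| |x - round x| with h | h
  · exact ⟨_, _, abs_nonneg _, h, hx, h1⟩
  · exact ⟨_, _, abs_nonneg _, h, hy, h1.trans (same_swap _ _)⟩

end Q262.Circ
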