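import Mathlib

/-!
Kernel-friendly counting functions on natural numbers.
-/

set_option autoImplicit false

namespace Q262.Circ

/-- evaluate `n` before passing it on -/
def force {α : Type} (n : ℕ) (k : ℕ → α) : α :=
  Nat.rec (motive := fun _ => α) (k 0) (fun m _ => k (Nat.succ m)) n

@[simp] theorem force_eq {α : Type} (n : ℕ) (k : ℕ → α) : force n k = k n := by
  cases n <;> rfl

/-- Newton iteration for the square root -/
def nwt (r : ℕ) (f : ℕ) : ℕ → ℕ :=
  Nat.rec (motive := fun _ => ℕ → ℕ) (fun T => T)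
    (fun _ ih T => force ((T + r / T) / 2) fun T' => cond (Nat.ble T T') T (ih T')) f

/-- contribution of a column -/
def colVal (N D H Y u T : ℕ) : ℕ :=
  cond (Nat.blt (T * T + u * u) N && Nat.ble (H + Y) T)
    ((T - H + Y) / D + (T - H - Y) / D + 1) 0

/-- sum over columns -/
def loop (N D H Y : ℕ) (f : ℕ) : ℕ → ℕ → ℕ → ℕ :=
  Nat.rec (motive := fun _ => ℕ → ℕ → ℕ → ℕ) (fun _ _ acc => acc)
    (fun _ ih u T acc =>
      force (nwt (N - u * u - 1) 12 T) fun T' =>
      force (acc + colVal N D H Y u T') fun acc' =>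
      force (u + D) fun u' => ih u' T' acc') f

/-- number of certainly enclosed points, for centres in a cell -/
def cellCount (N D M T0 X Y H : ℕ) : ℕ :=
  force (X + H) fun u0 => force (D + H - X) fun u1 =>
  loop N D H Y (M + 1) u0 T0 (loop N D H Y M u1 T0 0)

/-- the cell is contained in one of the special boxes -/
def inBox (X Y H : ℕ) (c : ℕ × ℕ × ℕ) : Bool :=
  Nat.ble (X + H) (c.1 + c.2.2) && Nat.ble (c.1 + H) (X + c.2.2) &&
  Nat.ble (Y + H) (c.2.1 + c.2.2) && Nat.ble (c.2.1 + H) (Y + c.2.2)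

/-- branch and bound -/
def bb (N D M T0 K : ℕ) (cs : List (ℕ × ℕ × ℕ)) (f : ℕ) : ℕ → ℕ → ℕ → Bool :=
  Nat.rec (motive := fun _ => ℕ → ℕ → ℕ → Bool) (fun _ _ _ => false)
    (fun _ ih X Y H =>
      cond (Nat.blt (X + 2 * H) Y) true
      (cond (cs.any (inBox X Y H)) true
      (cond (Nat.ble K (cellCount N D M T0 X Y H)) true
      (force (H / 2) fun h =>
        cond (Nat.beq (2 * h) H)
          (force (X - h) fun X1 => force (X + h) fun X2 =>
           force (Y - h) fun Y1 => force (Y + h) fun Y2 =>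
            (ih X1 Y1 h && (ih X1 Y2 h && (ih X2 Y1 h && ih X2 Y2 h))))
          false)))) f

end Q262.Circ
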