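import Pool.Agent.Q262.Circ.Local

/-!
Exact counts and circles near a lattice circle.
-/

set_option autoImplicit false

namespace Q262.Circ

/-- distance of naturals -/
def absd (x y : ℕ) : ℕ := (x - y) + (y - x)

theorem absd_sq (x y : ℕ) : ((absd x y * absd x y : ℕ) : ℤ) = ((x : ℤ) - y) ^ 2 := by
  unfold absd
  rcases le_total x y with h | h
  · rw [Nat.sub_eq_zero_of_le h, zero_add]
    push_cast [Nat.cast_sub h]
    ring
  · rw [Nat.sub_eq_zero_of_le h, add_zero]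
    push_cast [Nat.cast_sub h]
    ring

/-- count in a row -/
def rowCnt (D B R m : ℕ) : ℕ → ℕ :=
  Nat.rec (motive := fun _ => ℕ → ℕ) (fun acc => acc)
    (fun j ih acc => cond (Nat.blt (absd (D * j) B * absd (D * j) B) R)
      (force (acc + 1) ih) (ih acc)) m

/-- count in a box -/
def boxCnt (D A B N m' m : ℕ) : ℕ → ℕ :=
  Nat.rec (motive := fun _ => ℕ → ℕ) (fun acc => acc)
    (fun i ih acc => force (N - absd (D * i) A * absd (D * i) A) fun R =>
      force (rowCnt D B R m' acc) ih) m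

theorem rowCnt_succ (D B R m acc : ℕ) : rowCnt D B R (m + 1) acc =
    cond (Nat.blt (absd (D * m) B * absd (D * m) B) R)
      (rowCnt D B R m (acc + 1)) (rowCnt D B R m acc) := by
  have h : rowCnt D B R (m + 1) acc = cond (Nat.blt (absd (D * m) B * absd (D * m) B) R)
      (force (acc + 1) (rowCnt D B R m)) (rowCnt D B R m acc) := rfl
  rw [h, force_eq]

theorem rowCnt_eq (D B R m : ℕ) : ∀ acc, rowCnt D B R m acc =
    acc + ((Finset.range m).filter fun j : ℕ => ((D : ℤ) * j - B) ^ 2 < R).card := by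
  induction m with
  | zero => intro acc; simp [rowCnt]
  | succ m ih =>
    intro acc
    rw [rowCnt_succ, Finset.range_add_one, Finset.filter_insert]
    have e : (((D : ℤ) * (m : ℕ) - B) ^ 2 < R) ↔ absd (D * m) B * absd (D * m) B < R := by
      rw [← Nat.cast_lt (α := ℤ), absd_sq]
      push_cast
      rfl
    by_cases h : absd (D * m) B * absd (D * m) B < R
    · rw [if_pos (e.2 h), show Nat.blt (absd (D * m) B * absd (D * m) B) R = true by
        rw [Nat.blt_eq]; exact h, cond_true, ih, Finset.card_insert_of_notMem (by simp)]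
      omega
    · rw [if_neg (fun h' => h (e.1 h')), show Nat.blt (absd (D * m) B * absd (D * m) B) R = false by
        rw [← Bool.not_eq_true, Nat.blt_eq]; exact h, cond_false, ih]

theorem boxCnt_succ (D A B N m' m acc : ℕ) : boxCnt D A B N m' (m + 1) acc =
    boxCnt D A B N m' m (rowCnt D B (N - absd (D * m) A * absd (D * m) A) m' acc) := by
  have h : boxCnt D A B N m' (m + 1) acc =
    force (N - absd (D * m) A * absd (D * m) A) fun R =>
      force (rowCnt D B R m' acc) (boxCnt D A B N m' m) := rfl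
  rw [h]
  simp only [force_eq]

theorem boxCnt_eq (D A B N m' m : ℕ) : ∀ acc, boxCnt D A B N m' m acc =
    acc + ∑ i ∈ Finset.range m, ((Finset.range m').filter fun j : ℕ =>
      ((D : ℤ) * i - A) ^ 2 + ((D : ℤ) * j - B) ^ 2 < N).card := by
  induction m with
  | zero => intro acc; simp [boxCnt]
  | succ m ih =>
    intro acc
    rw [boxCnt_succ, ih, rowCnt_eq, Finset.sum_range_succ]
    have h : ((Finset.range m').filter fun j : ℕ => ((D : ℤ) * j - B) ^ 2 <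
          ((N - absd (D * m) A * absd (D * m) A : ℕ) : ℤ)) =
        ((Finset.range m').filter fun j : ℕ =>
          ((D : ℤ) * m - A) ^ 2 + ((D : ℤ) * j - B) ^ 2 < N) := by
      refine Finset.filter_congr fun j _ => ?_
      have e1 : ((D : ℤ) * m - A) ^ 2 = ((absd (D * m) A * absd (D * m) A : ℕ) : ℤ) := by
        rw [absd_sq]; push_cast; rfl
      have e2 : ((D : ℤ) * j - B) ^ 2 = ((absd (D * j) B * absd (D * j) B : ℕ) : ℤ) := by
        rw [absd_sq]; push_cast; rfl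
      rw [e1, e2]
      norm_cast
      omega
    rw [h]
    ring

/-- lattice points at squared distance less than `N / D²` from `(X, Y) / D` -/
def TS (D X Y N : ℕ) : Set (ℤ × ℤ) :=
  {p | ((D : ℤ) * p.1 - X) ^ 2 + ((D : ℤ) * p.2 - Y) ^ 2 < N}

theorem range_of_lt {D X M N : ℕ} (hX : X ≤ D) (hN : N ≤ (D * (M + 1) - X) * (D * (M + 1) - X))
    {z : ℤ} (hz : ((D : ℤ) * z - X) ^ 2 < N) : -(M : ℤ) ≤ z ∧ z ≤ M := by
  have hs : X ≤ D * (M + 1) := hX.trans (Nat.le_mul_of_pos_right _ (Nat.succ_pos _))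
  have hN' : (N : ℤ) ≤ ((D : ℤ) * (M + 1) - X) ^ 2 := by
    have : (N : ℤ) ≤ (((D * (M + 1) - X) * (D * (M + 1) - X) : ℕ) : ℤ) := by exact_mod_cast hN
    push_cast [Nat.cast_sub hs] at this
    linarith
  have hs' : (X : ℤ) ≤ (D : ℤ) * (M + 1) := by exact_mod_cast hs
  have hX0 : (0 : ℤ) ≤ X := Int.natCast_nonneg X
  have hD0 : (0 : ℤ) ≤ D := Int.natCast_nonneg D
  constructor
  · by_contra h
    push Not at h
    have h1 : z ≤ -(M : ℤ) - 1 := by omega
    have h2 : (D : ℤ) * z ≤ D * (-(M : ℤ) - 1) := mul_le_mul_of_nonneg_left h1 hD0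
    nlinarith
  · by_contra h
    push Not at h
    have h1 : (M : ℤ) + 1 ≤ z := by omega
    have h2 : (D : ℤ) * (M + 1) ≤ D * z := mul_le_mul_of_nonneg_left h1 hD0
    nlinarith

theorem TS_encard {D X Y N M : ℕ} (hX : X ≤ D) (hY : Y ≤ D)
    (hNX : N ≤ (D * (M + 1) - X) * (D * (M + 1) - X))
    (hNY : N ≤ (D * (M + 1) - Y) * (D * (M + 1) - Y)) :
    (TS D X Y N).encard =
      (boxCnt D (D * M + X) (D * M + Y) N (2 * M + 1) (2 * M + 1) 0 : ℕ) := by
  let g : ℕ × ℕ ↪ ℤ × ℤ := ⟨fun q => ((q.1 : ℤ) - M, (q.2 : ℤ) - M), fun a b h => by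
    rw [Prod.ext_iff] at h
    simp only at h
    exact Prod.ext (by omega) (by omega)⟩
  have h1 : TS D X Y N = (((((Finset.range (2 * M + 1)) ×ˢ (Finset.range (2 * M + 1))).filter
      fun q : ℕ × ℕ => ((D : ℤ) * q.1 - (D * M + X : ℕ)) ^ 2 +
        ((D : ℤ) * q.2 - (D * M + Y : ℕ)) ^ 2 < N).map g : Finset (ℤ × ℤ)) : Set (ℤ × ℤ)) := by
    ext p
    rw [Finset.mem_coe, Finset.mem_map]
    constructor
    · intro hp
      change ((D : ℤ) * p.1 - X) ^ 2 + ((D : ℤ) * p.2 - Y) ^ 2 < N at hp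
      obtain ⟨a1, a2⟩ := range_of_lt (z := p.1) hX hNX
        (lt_of_le_of_lt (by linarith [sq_nonneg ((D : ℤ) * p.2 - Y)]) hp)
      obtain ⟨b1, b2⟩ := range_of_lt (z := p.2) hY hNY
        (lt_of_le_of_lt (by linarith [sq_nonneg ((D : ℤ) * p.1 - X)]) hp)
      refine ⟨((p.1 + M).toNat, (p.2 + M).toNat), ?_, ?_⟩
      · rw [Finset.mem_filter, Finset.mem_product, Finset.mem_range, Finset.mem_range]
        refine ⟨⟨by simp only; omega, by simp only; omega⟩, ?_⟩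
        simp only
        rw [Int.toNat_of_nonneg (by omega), Int.toNat_of_nonneg (by omega)]
        push_cast
        rw [show (D : ℤ) * (p.1 + M) - (D * M + X) = D * p.1 - X by ring,
          show (D : ℤ) * (p.2 + M) - (D * M + Y) = D * p.2 - Y by ring]
        exact hp
      · change (((p.1 + M).toNat : ℤ) - M, ((p.2 + M).toNat : ℤ) - M) = p
        rw [Int.toNat_of_nonneg (by omega), Int.toNat_of_nonneg (by omega)]
        ext <;> simp
    · rintro ⟨q, hq, rfl⟩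
      rw [Finset.mem_filter] at hq
      have h2 := hq.2
      change ((D : ℤ) * ((q.1 : ℤ) - M) - X) ^ 2 + ((D : ℤ) * ((q.2 : ℤ) - M) - Y) ^ 2 < N
      push_cast at h2
      rw [show (D : ℤ) * ((q.1 : ℤ) - M) - X = D * q.1 - (D * M + X) by ring,
        show (D : ℤ) * ((q.2 : ℤ) - M) - Y = D * q.2 - (D * M + Y) by ring]
      exact h2
  rw [h1, Set.encard_coe_eq_coe_finsetCard, Finset.card_map, boxCnt_eq, zero_add,
    Finset.card_filter, Finset.sum_product]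
  congr 1
  refine Finset.sum_congr rfl fun i _ => ?_
  rw [Finset.card_filter]

theorem S_eq_TS {D X Y N : ℕ} (hD : 0 < D) :
    S ((X : ℝ) / D) ((Y : ℝ) / D) ((N : ℝ) / (D : ℝ) ^ 2) = TS D X Y N := by
  have hD' : (0 : ℝ) < D := by exact_mod_cast hD
  ext p
  rw [mem_S, lt_div_iff₀ (by positivity)]
  have h : (((p.1 : ℝ) - X / D) ^ 2 + ((p.2 : ℝ) - Y / D) ^ 2) * (D : ℝ) ^ 2 =
      ((((D : ℤ) * p.1 - X) ^ 2 + ((D : ℤ) * p.2 - Y) ^ 2 : ℤ) : ℝ) := by
    push_cast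
    field_simp
  rw [h]
  change _ ↔ ((D : ℤ) * p.1 - X) ^ 2 + ((D : ℤ) * p.2 - Y) ^ 2 < N
  norm_cast

theorem closed_sub {D X Y N : ℕ} (hD : 0 < D) {s : ℝ} (hs : (N : ℝ) / (D : ℝ) ^ 2 < s) :
    TS D X Y (N + 1) ⊆ S ((X : ℝ) / D) ((Y : ℝ) / D) s := by
  intro p hp
  have hD' : (0 : ℝ) < D := by exact_mod_cast hD
  change ((D : ℤ) * p.1 - X) ^ 2 + ((D : ℤ) * p.2 - Y) ^ 2 < ((N + 1 : ℕ) : ℤ) at hp
  have hp' : ((D : ℤ) * p.1 - X) ^ 2 + ((D : ℤ) * p.2 - Y) ^ 2 ≤ N := by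
    push_cast at hp; linarith
  have hp'' : ((D : ℝ) * p.1 - X) ^ 2 + ((D : ℝ) * p.2 - Y) ^ 2 ≤ N := by exact_mod_cast hp'
  rw [mem_S]
  refine lt_of_le_of_lt ?_ hs
  rw [le_div_iff₀ (by positivity)]
  have h : (((p.1 : ℝ) - X / D) ^ 2 + ((p.2 : ℝ) - Y / D) ^ 2) * (D : ℝ) ^ 2 =
      ((D : ℝ) * p.1 - X) ^ 2 + ((D : ℝ) * p.2 - Y) ^ 2 := by
    field_simp
  rw [h]
  exact hp''

/-- the lattice points on the circle -/
theorem boundary_eq {D X Y N a b : ℕ} {bs : List (ℤ × ℤ)} (hnd : bs.Nodup)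
    (hon : onOK N D X Y bs = true) (ha : (TS D X Y N).encard = (a : ℕ))
    (hb : (TS D X Y (N + 1)).encard = ((a + b : ℕ) : ℕ)) (hlen : bs.length = b) :
    ∀ p : ℤ × ℤ, ((D : ℤ) * p.1 - X) ^ 2 + ((D : ℤ) * p.2 - Y) ^ 2 = N ↔ p ∈ bs := by
  intro p
  constructor
  · intro hp
    by_contra hpb
    have hsub : TS D X Y N ∪ ((insert p bs.toFinset : Finset (ℤ × ℤ)) : Set (ℤ × ℤ)) ⊆
        TS D X Y (N + 1) := by
      intro q hq
      rcases hq with hq | hq
      · change ((D : ℤ) * q.1 - X) ^ 2 + ((D : ℤ) * q.2 - Y) ^ 2 < N at hq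
        change ((D : ℤ) * q.1 - X) ^ 2 + ((D : ℤ) * q.2 - Y) ^ 2 < ((N + 1 : ℕ) : ℤ)
        push_cast; linarith
      · rw [Finset.mem_coe, Finset.mem_insert, List.mem_toFinset] at hq
        change ((D : ℤ) * q.1 - X) ^ 2 + ((D : ℤ) * q.2 - Y) ^ 2 < ((N + 1 : ℕ) : ℤ)
        push_cast
        rcases hq with rfl | hq
        · linarith
        · have := onOK_sound hon hq
          unfold rel at this
          simp only at this
          linarith
    have hdisj : Disjoint (TS D X Y N)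
        ((insert p bs.toFinset : Finset (ℤ × ℤ)) : Set (ℤ × ℤ)) := by
      rw [Set.disjoint_left]
      intro q hq hq'
      change ((D : ℤ) * q.1 - X) ^ 2 + ((D : ℤ) * q.2 - Y) ^ 2 < N at hq
      rw [Finset.mem_coe, Finset.mem_insert, List.mem_toFinset] at hq'
      rcases hq' with rfl | hq'
      · linarith
      · have := onOK_sound hon hq'
        unfold rel at this
        simp only at this
        linarith
    have h1 := Set.encard_le_encard hsub
    rw [Set.encard_union_eq hdisj, ha, hb, Set.encard_coe_eq_coe_finsetCard,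
      Finset.card_insert_of_notMem (by rwa [List.mem_toFinset]),
      List.toFinset_card_of_nodup hnd, hlen] at h1
    have h2 : a + (b + 1) ≤ a + b := by exact_mod_cast h1
    omega
  · intro hp
    have := onOK_sound hon hp
    unfold rel at this
    exact this

/-- number of boundary points on the positive side of a line -/
def sideCnt (D X Y : ℕ) (bs : List (ℤ × ℤ)) (V : ℤ × ℤ) (τ : ℤ) : ℕ :=
  (bs.filter fun p => decide (τ < V.1 * (rel D X Y p).1 + V.2 * (rel D X Y p).2)).length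

theorem approach_set {D X Y N : ℕ} (hD : 0 < D) {bs : List (ℤ × ℤ)}
    (hbs : ∀ p : ℤ × ℤ, ((D : ℤ) * p.1 - X) ^ 2 + ((D : ℤ) * p.2 - Y) ^ 2 = N ↔ p ∈ bs)
    (V : ℤ × ℤ) (τ : ℤ) {ε : ℝ} (hε : 0 < ε)
    (hε' : ε * (2 * (N + 1) * (|(V.1 : ℝ)| + |(V.2 : ℝ)| + |(τ : ℝ)| + 1)) ≤ 1) :
    S ((X + ε * V.1) / D) ((Y + ε * V.2) / D)
      ((N - 2 * ε * τ + ε ^ 2 * ((V.1 : ℝ) ^ 2 + (V.2 : ℝ) ^ 2)) / (D : ℝ) ^ 2) =
    TS D X Y N ∪ (((bs.filter fun p => decide (τ < V.1 * (rel D X Y p).1 +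
      V.2 * (rel D X Y p).2)).toFinset : Finset (ℤ × ℤ)) : Set (ℤ × ℤ)) := by
  have hD' : (0 : ℝ) < D := by exact_mod_cast hD
  ext p
  rw [Set.mem_union, Finset.mem_coe, List.mem_toFinset, List.mem_filter, decide_eq_true_eq,
    ← hbs, mem_S, lt_div_iff₀ (by positivity)]
  have e1 : (((p.1 : ℝ) - (X + ε * V.1) / D) ^ 2 + ((p.2 : ℝ) - (Y + ε * V.2) / D) ^ 2) *
      (D : ℝ) ^ 2 = (D * p.1 - X - ε * V.1) ^ 2 + (D * p.2 - Y - ε * V.2) ^ 2 := by
    field_simp
    ring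
  rw [e1]
  change _ ↔ ((D : ℤ) * p.1 - X) ^ 2 + ((D : ℤ) * p.2 - Y) ^ 2 < N ∨ _
  unfold rel
  simp only
  set P : ℤ := (D : ℤ) * p.1 - X with hP
  set Q : ℤ := (D : ℤ) * p.2 - Y with hQ
  have eP : (D : ℝ) * p.1 - X = P := by rw [hP]; push_cast; ring
  have eQ : (D : ℝ) * p.2 - Y = Q := by rw [hQ]; push_cast; ring
  rw [eP, eQ]
  have e2 : ((P : ℝ) - ε * V.1) ^ 2 + (Q - ε * V.2) ^ 2 <
      N - 2 * ε * τ + ε ^ 2 * ((V.1 : ℝ) ^ 2 + (V.2 : ℝ) ^ 2) ↔
      ((P : ℝ) ^ 2 + (Q : ℝ) ^ 2) - N < 2 * ε * (V.1 * P + V.2 * Q - τ) := by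
    constructor <;> intro h <;> nlinarith
  rw [e2]
  set W : ℤ := P ^ 2 + Q ^ 2 with hW
  have eW : (P : ℝ) ^ 2 + (Q : ℝ) ^ 2 = W := by rw [hW]; push_cast; ring
  rw [eW]
  have hPW : |(P : ℝ)| ≤ W := by
    have h1 : |P| ≤ P ^ 2 := by
      rw [← sq_abs]
      rcases eq_or_ne P 0 with h | h
      · rw [h]; simp
      · exact le_self_pow₀ (Int.one_le_abs h) two_ne_zero
    have h2 : |P| ≤ W := by rw [hW]; nlinarith [sq_nonneg Q]
    exact_mod_cast h2
  have hQW : |(Q : ℝ)| ≤ W := by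
    have h1 : |Q| ≤ Q ^ 2 := by
      rw [← sq_abs]
      rcases eq_or_ne Q 0 with h | h
      · rw [h]; simp
      · exact le_self_pow₀ (Int.one_le_abs h) two_ne_zero
    have h2 : |Q| ≤ W := by rw [hW]; nlinarith [sq_nonneg P]
    exact_mod_cast h2
  have hW0 : (0 : ℝ) ≤ W := (abs_nonneg _).trans hPW
  have hlin : |(V.1 : ℝ) * P + V.2 * Q - τ| ≤
      (|(V.1 : ℝ)| + |(V.2 : ℝ)|) * W + |(τ : ℝ)| := by
    calc |(V.1 : ℝ) * P + V.2 * Q - τ| ≤ |(V.1 : ℝ) * P + V.2 * Q| + |(τ : ℝ)| := abs_sub _ _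
      _ ≤ |(V.1 : ℝ) * P| + |(V.2 : ℝ) * Q| + |(τ : ℝ)| := by
          linarith [abs_add_le ((V.1 : ℝ) * P) (V.2 * Q)]
      _ = |(V.1 : ℝ)| * |(P : ℝ)| + |(V.2 : ℝ)| * |(Q : ℝ)| + |(τ : ℝ)| := by
          rw [abs_mul, abs_mul]
      _ ≤ |(V.1 : ℝ)| * W + |(V.2 : ℝ)| * W + |(τ : ℝ)| := by
          have := mul_le_mul_of_nonneg_left hPW (abs_nonneg (V.1 : ℝ))
          have := mul_le_mul_of_nonneg_left hQW (abs_nonneg (V.2 : ℝ))
          linarith
      _ = _ := by ring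
  set L : ℝ := |(V.1 : ℝ)| + |(V.2 : ℝ)| with hL
  have hL0 : 0 ≤ L := by positivity
  have hτ0 : 0 ≤ |(τ : ℝ)| := abs_nonneg _
  have hN0 : (0 : ℝ) ≤ N := Nat.cast_nonneg _
  rcases lt_trichotomy W (N : ℤ) with h | h | h
  · -- interior point
    have h1 : (W : ℝ) ≤ N - 1 := by
      have : W ≤ (N : ℤ) - 1 := by omega
      exact_mod_cast this
    refine ⟨fun _ => Or.inl h, fun _ => ?_⟩
    have h2 := (abs_le.1 hlin).1
    have h3 : ε * (2 * (L * W + |(τ : ℝ)|)) < 1 := by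
      refine lt_of_lt_of_le ?_ hε'
      refine mul_lt_mul_of_pos_left ?_ hε
      nlinarith [mul_nonneg hL0 hN0, mul_nonneg hτ0 hN0, mul_le_mul_of_nonneg_left h1 hL0]
    nlinarith
  · -- boundary point
    have h1 : (W : ℝ) = N := by exact_mod_cast h
    rw [h1, sub_self]
    constructor
    · intro h2
      right
      refine ⟨h, ?_⟩
      have h3 : 0 < (V.1 : ℝ) * P + V.2 * Q - τ :=
        (mul_pos_iff_of_pos_left (by positivity)).1 h2
      have h4 : (τ : ℝ) < V.1 * P + V.2 * Q := by linarith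
      exact_mod_cast h4
    · rintro (h2 | ⟨_, h2⟩)
      · omega
      · have h4 : (τ : ℝ) < V.1 * P + V.2 * Q := by exact_mod_cast h2
        have : 0 < (V.1 : ℝ) * P + V.2 * Q - τ := by linarith
        positivity
  · -- exterior point
    have h1 : (N : ℝ) + 1 ≤ W := by
      have : (N : ℤ) + 1 ≤ W := by omega
      exact_mod_cast this
    constructor
    · intro h2
      exfalso
      have h3 := (abs_le.1 hlin).2
      have h4 : 2 * ε * (V.1 * P + V.2 * Q - τ) ≤ 2 * ε * (L * W + |(τ : ℝ)|) :=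
        mul_le_mul_of_nonneg_left h3 (by positivity)
      have h5 : L * W + |(τ : ℝ)| ≤ (L + |(τ : ℝ)| + 1) * W := by nlinarith
      have h6 : 2 * ε * (L * W + |(τ : ℝ)|) ≤ 2 * ε * ((L + |(τ : ℝ)| + 1) * W) :=
        mul_le_mul_of_nonneg_left h5 (by positivity)
      have h7 : (N + 1) * (2 * ε * ((L + |(τ : ℝ)| + 1) * W)) ≤ W := by
        calc (N + 1) * (2 * ε * ((L + |(τ : ℝ)| + 1) * W))
            = (ε * (2 * (N + 1) * (L + |(τ : ℝ)| + 1))) * W := by ring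
          _ ≤ 1 * W := mul_le_mul_of_nonneg_right hε' hW0
          _ = W := one_mul _
      have h8 : (W : ℝ) ≤ (N + 1) * (W - N) := by nlinarith
      nlinarith
    · rintro (h2 | ⟨h2, _⟩)
      · omega
      · omega

end Q262.Circ
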