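import Pool.Agent.Q262.Circ.Main

/-!
Data: lattice circles of squared radius `189125 / 338`.
-/

set_option autoImplicit false
set_option maxRecDepth 100000

namespace Q262.Circ.I1748

/-- scaled squared radius -/
def N : ℕ := 6498285518848000

/-- scale -/
def D : ℕ := 3407872

/-- half side of the root cell -/
def A : ℕ := 851968

/-- initial square root -/
def T0 : ℕ := 80611945

/-- centre -/
def X : ℕ := 1179648

/-- centre -/
def Y : ℕ := 655360

/-- box -/
def E : ℕ := 53248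

/-- lattice points on the circle -/
def bs : List (ℤ × ℤ) :=
  [(-23, 4), (-21, -10), (-14, 19), (5, -23), (23, 7), (24, 0)]

/-- special centres -/
def cs : List (ℕ × ℕ × ℕ) := [(X, Y, E)]

theorem hbb : bb N D 25 T0 1750 cs 16 A A A = true := by decide +kernel

theorem hon : onOK N D X Y bs = true := by decide +kernel

theorem hnd : bs.Nodup := by decide +kernel

theorem hloc : localOK (bs.map (rel D X Y)) (E : ℕ) 2 8 = true := by decide +kernel

theorem hcell : 1750 ≤ cellCount N D 25 T0 X Y E + 2 := by decide +kernel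

theorem hex : Exact N D X Y 1748 6 bs :=
  Exact.mk' (M := 25) (by decide +kernel) (by decide +kernel) (by decide +kernel)
    (by decide +kernel) (by decide +kernel) (by decide +kernel) (by decide +kernel) hnd hon
    (by decide +kernel)

theorem hgap (x y : ℝ) : ((1750 : ℕ) : ℕ∞) ≤ cnt x y ((N : ℝ) / (D : ℝ) ^ 2) ∨
    ∃ c ∈ cs, Same x y ((c.1 : ℝ) / D) ((c.2.1 : ℝ) / D) := by
  refine gap (A := A) (by decide +kernel) (by decide +kernel) hbb ?_ x y
  intro c hc
  rw [cs, List.mem_singleton] at hc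
  subst hc
  exact ⟨by decide +kernel, bs, 2, 8, hnd, hon, hloc, hcell⟩

theorem side_1749 : sideCnt D X Y bs (-1, -1) (87031808) = 1 := by decide +kernel

theorem hgap_1749 (x y : ℝ) : ((1749 + 1 : ℕ) : ℕ∞) ≤ cnt x y ((N : ℝ) / (D : ℝ) ^ 2) ∨
    ∃ c ∈ cs, Same x y ((c.1 : ℝ) / D) ((c.2.1 : ℝ) / D) := by
  rcases hgap x y with h | h
  · exact Or.inl (le_trans (Nat.cast_le.2 (by norm_num)) h)
  · exact Or.inr h

theorem nonMC_1749 : ¬ MC 1749 := by
  refine nonMC_of hgap_1749 ?_ ?_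
  · intro c hc
    rw [cs, List.mem_singleton] at hc
    subst hc
    exact ⟨by rw [hex.cnt_eq]; exact fun h => absurd (Nat.cast_inj.1 h) (by decide),
      fun s hs => le_trans (Nat.cast_le.2 (by norm_num)) (hex.le_cnt hs)⟩
  · intro δ hδ
    obtain ⟨x, y, s, h1, h2⟩ := hex.approach (-1, -1) (87031808) hδ
    exact ⟨x, y, s, h1, by rw [h2, side_1749]⟩

theorem hgap_1748 (x y : ℝ) : ((1748 + 1 : ℕ) : ℕ∞) ≤ cnt x y ((N : ℝ) / (D : ℝ) ^ 2) ∨
    ∃ c ∈ cs, Same x y ((c.1 : ℝ) / D) ((c.2.1 : ℝ) / D) := by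
  rcases hgap x y with h | h
  · exact Or.inl (le_trans (Nat.cast_le.2 (by norm_num)) h)
  · exact Or.inr h

theorem isMax : MCCircle 1748 ((X : ℝ) / D) ((Y : ℝ) / D)
    (Real.sqrt ((N : ℝ) / (D : ℝ) ^ 2)) := by
  refine isMax_of hgap_1748 ?_ (by unfold N D; norm_num) hex.cnt_eq
  · intro c hc
    rw [cs, List.mem_singleton] at hc
    subst hc
    exact fun s hs => le_trans (Nat.cast_le.2 (by norm_num)) (hex.le_cnt hs)

end Q262.Circ.I1748
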