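import Pool.Agent.Q262.Circ.Main

/-!
Data: lattice circles of squared radius `2925 / 4`.
-/

set_option autoImplicit false
set_option maxRecDepth 100000

namespace Q262.Circ.I2289

/-- scaled squared radius -/
def N : ℕ := 50251117363200

/-- scale -/
def D : ℕ := 262144

/-- half side of the root cell -/
def A : ℕ := 65536

/-- initial square root -/
def T0 : ℕ := 7088803

/-- centre -/
def X : ℕ := 131072

/-- centre -/
def Y : ℕ := 0

/-- box -/
def E : ℕ := 4096

/-- lattice points on the circle -/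
def bs : List (ℤ × ℤ) :=
  [(-25, -9), (-25, 9), (-22, -15), (-22, 15), (-1, -27), (-1, 27), (2, -27), (2, 27), (23, -15), (23, 15), (26, -9), (26, 9)]

/-- special centres -/
def cs : List (ℕ × ℕ × ℕ) := [(X, Y, E)]

theorem hbb : bb N D 29 T0 2290 cs 16 A A A = true := by decide +kernel

theorem hon : onOK N D X Y bs = true := by decide +kernel

theorem hnd : bs.Nodup := by decide +kernel

theorem hloc : localOK (bs.map (rel D X Y)) (E : ℕ) 4 8 = true := by decide +kernel

theorem hcell : 2290 ≤ cellCount N D 29 T0 X Y E + 4 := by decide +kernel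

theorem hex : Exact N D X Y 2286 12 bs :=
  Exact.mk' (M := 29) (by decide +kernel) (by decide +kernel) (by decide +kernel)
    (by decide +kernel) (by decide +kernel) (by decide +kernel) (by decide +kernel) hnd hon
    (by decide +kernel)

theorem hgap (x y : ℝ) : ((2290 : ℕ) : ℕ∞) ≤ cnt x y ((N : ℝ) / (D : ℝ) ^ 2) ∨
    ∃ c ∈ cs, Same x y ((c.1 : ℝ) / D) ((c.2.1 : ℝ) / D) := by
  refine gap (A := A) (by decide +kernel) (by decide +kernel) hbb ?_ x y
  intro c hc
  rw [cs, List.mem_singleton] at hc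
  subst hc
  exact ⟨by decide +kernel, bs, 4, 8, hnd, hon, hloc, hcell⟩

theorem side_2289 : sideCnt D X Y bs (-1, -1) (7077888) = 3 := by decide +kernel

theorem hgap_2289 (x y : ℝ) : ((2289 + 1 : ℕ) : ℕ∞) ≤ cnt x y ((N : ℝ) / (D : ℝ) ^ 2) ∨
    ∃ c ∈ cs, Same x y ((c.1 : ℝ) / D) ((c.2.1 : ℝ) / D) := by
  rcases hgap x y with h | h
  · exact Or.inl (le_trans (Nat.cast_le.2 (by norm_num)) h)
  · exact Or.inr h

theorem nonMC_2289 : ¬ MC 2289 := by
  refine nonMC_of hgap_2289 ?_ ?_
  · intro c hc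
    rw [cs, List.mem_singleton] at hc
    subst hc
    exact ⟨by rw [hex.cnt_eq]; exact fun h => absurd (Nat.cast_inj.1 h) (by decide),
      fun s hs => le_trans (Nat.cast_le.2 (by norm_num)) (hex.le_cnt hs)⟩
  · intro δ hδ
    obtain ⟨x, y, s, h1, h2⟩ := hex.approach (-1, -1) (7077888) hδ
    exact ⟨x, y, s, h1, by rw [h2, side_2289]⟩

end Q262.Circ.I2289
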