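import Pool.Agent.Q262.Circ.Main

/-!
Data: lattice circles of squared radius `60125 / 578`.
-/

set_option autoImplicit false
set_option maxRecDepth 100000

namespace Q262.Circ.I322

/-- scaled squared radius -/
def N : ℕ := 2065879269376000

/-- scale -/
def D : ℕ := 4456448

/-- half side of the root cell -/
def A : ℕ := 1114112

/-- initial square root -/
def T0 : ℕ := 45451945

/-- centre -/
def X1 : ℕ := 1179648

/-- centre -/
def Y1 : ℕ := 1179648

/-- box -/
def E1 : ℕ := 69632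

/-- lattice points on the circle -/
def bs1 : List (ℤ × ℤ) :=
  [(-9, -4), (-5, 9), (-4, -9), (9, -5)]

/-- centre -/
def X2 : ℕ := 2228224

/-- centre -/
def Y2 : ℕ := 393216

/-- box -/
def E2 : ℕ := 69632

/-- lattice points on the circle -/
def bs2 : List (ℤ × ℤ) :=
  [(-7, 7), (-1, -10), (2, -10), (8, 7)]

/-- special centres -/
def cs : List (ℕ × ℕ × ℕ) := [(X1, Y1, E1), (X2, Y2, E2)]

theorem hbb : bb N D 12 T0 323 cs 16 A A A = true := by decide +kernel

theorem hon1 : onOK N D X1 Y1 bs1 = true := by decide +kernel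

theorem hnd1 : bs1.Nodup := by decide +kernel

theorem hloc1 : localOK (bs1.map (rel D X1 Y1)) (E1 : ℕ) 1 8 = true := by decide +kernel

theorem hcell1 : 323 ≤ cellCount N D 12 T0 X1 Y1 E1 + 1 := by decide +kernel

theorem hex1 : Exact N D X1 Y1 322 4 bs1 :=
  Exact.mk' (M := 12) (by decide +kernel) (by decide +kernel) (by decide +kernel)
    (by decide +kernel) (by decide +kernel) (by decide +kernel) (by decide +kernel) hnd1 hon1
    (by decide +kernel)

theorem hon2 : onOK N D X2 Y2 bs2 = true := by decide +kernel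

theorem hnd2 : bs2.Nodup := by decide +kernel

theorem hloc2 : localOK (bs2.map (rel D X2 Y2)) (E2 : ℕ) 1 8 = true := by decide +kernel

theorem hcell2 : 323 ≤ cellCount N D 12 T0 X2 Y2 E2 + 1 := by decide +kernel

theorem hex2 : Exact N D X2 Y2 322 4 bs2 :=
  Exact.mk' (M := 12) (by decide +kernel) (by decide +kernel) (by decide +kernel)
    (by decide +kernel) (by decide +kernel) (by decide +kernel) (by decide +kernel) hnd2 hon2
    (by decide +kernel)

theorem hgap (x y : ℝ) : ((323 : ℕ) : ℕ∞) ≤ cnt x y ((N : ℝ) / (D : ℝ) ^ 2) ∨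
    ∃ c ∈ cs, Same x y ((c.1 : ℝ) / D) ((c.2.1 : ℝ) / D) := by
  refine gap (A := A) (by decide +kernel) (by decide +kernel) hbb ?_ x y
  intro c hc
  rw [cs, List.mem_cons, List.mem_singleton] at hc
  rcases hc with rfl | rfl
  · exact ⟨by decide +kernel, bs1, 1, 8, hnd1, hon1, hloc1, hcell1⟩
  · exact ⟨by decide +kernel, bs2, 1, 8, hnd2, hon2, hloc2, hcell2⟩

theorem hgap_322 (x y : ℝ) : ((322 + 1 : ℕ) : ℕ∞) ≤ cnt x y ((N : ℝ) / (D : ℝ) ^ 2) ∨
    ∃ c ∈ cs, Same x y ((c.1 : ℝ) / D) ((c.2.1 : ℝ) / D) := by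
  rcases hgap x y with h | h
  · exact Or.inl (le_trans (Nat.cast_le.2 (by norm_num)) h)
  · exact Or.inr h

theorem isMax1 : MCCircle 322 ((X1 : ℝ) / D) ((Y1 : ℝ) / D)
    (Real.sqrt ((N : ℝ) / (D : ℝ) ^ 2)) := by
  refine isMax_of hgap_322 ?_ (by unfold N D; norm_num) hex1.cnt_eq
  · intro c hc
    rw [cs, List.mem_cons, List.mem_singleton] at hc
    rcases hc with rfl | rfl
    · exact fun s hs => le_trans (Nat.cast_le.2 (by norm_num)) (hex1.le_cnt hs)
    · exact fun s hs => le_trans (Nat.cast_le.2 (by norm_num)) (hex2.le_cnt hs)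

theorem isMax2 : MCCircle 322 ((X2 : ℝ) / D) ((Y2 : ℝ) / D)
    (Real.sqrt ((N : ℝ) / (D : ℝ) ^ 2)) := by
  refine isMax_of hgap_322 ?_ (by unfold N D; norm_num) hex2.cnt_eq
  · intro c hc
    rw [cs, List.mem_cons, List.mem_singleton] at hc
    rcases hc with rfl | rfl
    · exact fun s hs => le_trans (Nat.cast_le.2 (by norm_num)) (hex1.le_cnt hs)
    · exact fun s hs => le_trans (Nat.cast_le.2 (by norm_num)) (hex2.le_cnt hs)

end Q262.Circ.I322
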