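import Pool.Agent.Q262.Circ.Main

/-!
Data: lattice circles of squared radius `4930 / 4`.
-/

set_option autoImplicit false
set_option maxRecDepth 100000

namespace Q262.Circ.I3853

/-- scaled squared radius -/
def N : ℕ := 84696755077120

/-- scale -/
def D : ℕ := 262144

/-- half side of the root cell -/
def A : ℕ := 65536

/-- initial square root -/
def T0 : ℕ := 9203084

/-- centre -/
def X : ℕ := 131072

/-- centre -/
def Y : ℕ := 131072

/-- box -/
def E : ℕ := 4096

/-- lattice points on the circle -/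
def bs : List (ℤ × ℤ) :=
  [(-34, -6), (-34, 7), (-33, -10), (-33, 11), (-31, -15), (-31, 16), (-28, -20), (-28, 21), (-20, -28), (-20, 29), (-15, -31), (-15, 32), (-10, -33), (-10, 34), (-6, -34), (-6, 35), (7, -34), (7, 35), (11, -33), (11, 34), (16, -31), (16, 32), (21, -28), (21, 29), (29, -20), (29, 21), (32, -15), (32, 16), (34, -10), (34, 11), (35, -6), (35, 7)]

/-- special centres -/
def cs : List (ℕ × ℕ × ℕ) := [(X, Y, E)]

theorem hbb : bb N D 37 T0 3854 cs 16 A A A = true := by decide +kernel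

theorem hon : onOK N D X Y bs = true := by decide +kernel

theorem hnd : bs.Nodup := by decide +kernel

theorem hloc : localOK (bs.map (rel D X Y)) (E : ℕ) 2 8 = true := by decide +kernel

theorem hcell : 3854 ≤ cellCount N D 37 T0 X Y E + 2 := by decide +kernel

theorem hex : Exact N D X Y 3852 32 bs :=
  Exact.mk' (M := 37) (by decide +kernel) (by decide +kernel) (by decide +kernel)
    (by decide +kernel) (by decide +kernel) (by decide +kernel) (by decide +kernel) hnd hon
    (by decide +kernel)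

theorem hgap (x y : ℝ) : ((3854 : ℕ) : ℕ∞) ≤ cnt x y ((N : ℝ) / (D : ℝ) ^ 2) ∨
    ∃ c ∈ cs, Same x y ((c.1 : ℝ) / D) ((c.2.1 : ℝ) / D) := by
  refine gap (A := A) (by decide +kernel) (by decide +kernel) hbb ?_ x y
  intro c hc
  rw [cs, List.mem_singleton] at hc
  subst hc
  exact ⟨by decide +kernel, bs, 2, 8, hnd, hon, hloc, hcell⟩

theorem side_3853 : sideCnt D X Y bs (-2, -1) (20447232) = 1 := by decide +kernel

theorem hgap_3853 (x y : ℝ) : ((3853 + 1 : ℕ) : ℕ∞) ≤ cnt x y ((N : ℝ) / (D : ℝ) ^ 2) ∨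
    ∃ c ∈ cs, Same x y ((c.1 : ℝ) / D) ((c.2.1 : ℝ) / D) := by
  rcases hgap x y with h | h
  · exact Or.inl (le_trans (Nat.cast_le.2 (by norm_num)) h)
  · exact Or.inr h

theorem nonMC_3853 : ¬ MC 3853 := by
  refine nonMC_of hgap_3853 ?_ ?_
  · intro c hc
    rw [cs, List.mem_singleton] at hc
    subst hc
    exact ⟨by rw [hex.cnt_eq]; exact fun h => absurd (Nat.cast_inj.1 h) (by decide),
      fun s hs => le_trans (Nat.cast_le.2 (by norm_num)) (hex.le_cnt hs)⟩
  · intro δ hδ
    obtain ⟨x, y, s, h1, h2⟩ := hex.approach (-2, -1) (20447232) hδ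
    exact ⟨x, y, s, h1, by rw [h2, side_3853]⟩

end Q262.Circ.I3853
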