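import Pool.Agent.Q262.Circ.Sound

/-!
The neighbourhood of a special centre.
-/

set_option autoImplicit false

namespace Q262.Circ

/-- `2 v · w - |v|²` for `v = t a + b`. -/
def gqi (a b w : ℤ × ℤ) (t : ℤ) : ℤ :=
  2 * ((t * a.1 + b.1) * w.1 + (t * a.2 + b.2) * w.2) -
    ((t * a.1 + b.1) * (t * a.1 + b.1) + (t * a.2 + b.2) * (t * a.2 + b.2))

/-- the real version of `gqi` -/
noncomputable def gqr (a b w : ℤ × ℤ) (t : ℝ) : ℝ :=
  2 * ((t * a.1 + b.1) * w.1 + (t * a.2 + b.2) * w.2) -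
    ((t * a.1 + b.1) ^ 2 + (t * a.2 + b.2) ^ 2)

theorem gq_cast (a b w : ℤ × ℤ) (t : ℤ) : ((gqi a b w t : ℤ) : ℝ) = gqr a b w t := by
  unfold gqi gqr
  push_cast
  ring

theorem gqr_pos {a b w : ℤ × ℤ} {lo hi t : ℝ} (h1 : lo ≤ t) (h2 : t ≤ hi)
    (h3 : 0 < gqr a b w lo) (h4 : 0 < gqr a b w hi) : 0 < gqr a b w t := by
  rcases h1.eq_or_lt with h | h
  · rwa [← h]
  have key : (hi - lo) * gqr a b w t = (hi - t) * gqr a b w lo + (t - lo) * gqr a b w hi +
      (((a.1 : ℝ)) ^ 2 + (a.2 : ℝ) ^ 2) * ((hi - lo) * ((t - lo) * (hi - t))) := by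
    unfold gqr
    ring
  have hlo : 0 < hi - lo := by linarith
  have k1 : 0 ≤ (hi - t) * gqr a b w lo := mul_nonneg (by linarith) h3.le
  have k2 : 0 < (t - lo) * gqr a b w hi := mul_pos (by linarith) h4
  have k3 : 0 ≤ (((a.1 : ℝ)) ^ 2 + (a.2 : ℝ) ^ 2) * ((hi - lo) * ((t - lo) * (hi - t))) :=
    mul_nonneg (by positivity) (mul_nonneg hlo.le (mul_nonneg (by linarith) (by linarith)))
  have k4 : 0 < (hi - lo) * gqr a b w t := by rw [key]; linarith
  exact (mul_pos_iff_of_pos_left hlo).1 k4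

/-- check of one side of the square around the special centre -/
def segOK (ws : List (ℤ × ℤ)) (a b : ℤ × ℤ) (need : ℕ) : ℕ → ℤ → ℤ → Bool
  | 0, _, _ => false
  | f + 1, lo, hi =>
    (Nat.ble need (ws.filter fun w => decide (0 < gqi a b w lo) && decide (0 < gqi a b w hi)).length)
    || (segOK ws a b need f lo ((lo + hi) / 2) && segOK ws a b need f ((lo + hi) / 2) hi)

theorem segOK_sound (ws : List (ℤ × ℤ)) (a b : ℤ × ℤ) (need : ℕ) (f : ℕ) :
    ∀ lo hi : ℤ, segOK ws a b need f lo hi = true → ∀ t : ℝ, (lo : ℝ) ≤ t → t ≤ hi →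
      ∃ l : List (ℤ × ℤ), l.Sublist ws ∧ need ≤ l.length ∧ ∀ w ∈ l, 0 < gqr a b w t := by
  induction f with
  | zero => intro lo hi h; exact absurd h (by simp [segOK])
  | succ f ih =>
    intro lo hi h t h1 h2
    rw [segOK, Bool.or_eq_true] at h
    rcases h with h | h
    · refine ⟨_, List.filter_sublist, by rwa [Nat.ble_eq] at h, ?_⟩
      intro w hw
      rw [List.mem_filter] at hw
      obtain ⟨_, hw⟩ := hw
      rw [Bool.and_eq_true, decide_eq_true_eq, decide_eq_true_eq] at hw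
      refine gqr_pos h1 h2 ?_ ?_
      · rw [← gq_cast]; exact_mod_cast hw.1
      · rw [← gq_cast]; exact_mod_cast hw.2
    · rw [Bool.and_eq_true] at h
      rcases le_total t (((lo + hi) / 2 : ℤ) : ℝ) with h3 | h3
      · exact ih _ _ h.1 t h1 h3
      · exact ih _ _ h.2 t h3 h2

/-- check of the square around the special centre -/
def localOK (ws : List (ℤ × ℤ)) (E : ℤ) (need f : ℕ) : Bool :=
  segOK ws (0, 1) (E, 0) need f (-E) E && (segOK ws (0, 1) (-E, 0) need f (-E) E &&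
  (segOK ws (1, 0) (0, E) need f (-E) E && segOK ws (1, 0) (0, -E) need f (-E) E))

theorem scale_pos {v1 v2 w1 w2 m : ℝ} (hm : 1 ≤ m)
    (h : 0 < 2 * ((m * v1) * w1 + (m * v2) * w2) - ((m * v1) ^ 2 + (m * v2) ^ 2)) :
    0 < 2 * (v1 * w1 + v2 * w2) - (v1 ^ 2 + v2 ^ 2) := by
  have h1 : 2 * ((m * v1) * w1 + (m * v2) * w2) - ((m * v1) ^ 2 + (m * v2) ^ 2) =
      m * (2 * (v1 * w1 + v2 * w2) - m * (v1 ^ 2 + v2 ^ 2)) := by ring
  rw [h1] at h
  have h2 : 0 < 2 * (v1 * w1 + v2 * w2) - m * (v1 ^ 2 + v2 ^ 2) :=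
    (mul_pos_iff_of_pos_left (by linarith)).1 h
  nlinarith [sq_nonneg v1, sq_nonneg v2]

theorem localOK_sound {ws : List (ℤ × ℤ)} {E : ℤ} {need f : ℕ} (h : localOK ws E need f = true)
    {v1 v2 : ℝ} (hv : ¬ (v1 = 0 ∧ v2 = 0)) (h1 : |v1| ≤ E) (h2 : |v2| ≤ E) :
    ∃ l : List (ℤ × ℤ), l.Sublist ws ∧ need ≤ l.length ∧
      ∀ w ∈ l, 0 < 2 * (v1 * w.1 + v2 * w.2) - (v1 ^ 2 + v2 ^ 2) := by
  unfold localOK at h
  simp only [Bool.and_eq_true] at h
  obtain ⟨c1, c2, c3, c4⟩ := h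
  rcases le_total |v2| |v1| with h3 | h3
  · have h4 : 0 < |v1| := by
      rcases (abs_nonneg v1).eq_or_lt with h5 | h5
      · exfalso
        rw [← h5] at h3
        exact hv ⟨abs_eq_zero.1 h5.symm, abs_nonpos_iff.1 h3⟩
      · exact h5
    have hE : 0 < (E : ℝ) := h4.trans_le h1
    have hm : 1 ≤ (E : ℝ) / |v1| := by rwa [le_div_iff₀ h4, one_mul]
    have ht : |(E : ℝ) / |v1| * v2| ≤ E := by
      rw [abs_mul, abs_div, abs_abs, abs_of_pos hE, div_mul_eq_mul_div, div_le_iff₀ h4]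
      exact mul_le_mul_of_nonneg_left h3 hE.le
    obtain ⟨t1, t2⟩ := abs_le.1 ht
    rcases le_total 0 v1 with h6 | h6
    · have hv1 : (E : ℝ) / |v1| * v1 = E := by
        rw [abs_of_nonneg h6] at h4 ⊢
        field_simp
      obtain ⟨l, hl1, hl2, hl3⟩ := segOK_sound ws _ _ _ _ _ _ c1 ((E : ℝ) / |v1| * v2)
        (by push_cast; exact t1) t2
      refine ⟨l, hl1, hl2, fun w hw => scale_pos hm ?_⟩
      have := hl3 w hw
      unfold gqr at this
      rw [hv1]
      push_cast at this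
      simpa using this
    · have hv1 : (E : ℝ) / |v1| * v1 = -E := by
        rw [abs_of_nonpos h6] at h4 ⊢
        have : v1 ≠ 0 := by linarith
        field_simp
      obtain ⟨l, hl1, hl2, hl3⟩ := segOK_sound ws _ _ _ _ _ _ c2 ((E : ℝ) / |v1| * v2)
        (by push_cast; exact t1) t2
      refine ⟨l, hl1, hl2, fun w hw => scale_pos hm ?_⟩
      have := hl3 w hw
      unfold gqr at this
      rw [hv1]
      push_cast at this
      simpa using this
  · have h4 : 0 < |v2| := by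
      rcases (abs_nonneg v2).eq_or_lt with h5 | h5
      · exfalso
        rw [← h5] at h3
        exact hv ⟨abs_nonpos_iff.1 h3, abs_eq_zero.1 h5.symm⟩
      · exact h5
    have hE : 0 < (E : ℝ) := h4.trans_le h2
    have hm : 1 ≤ (E : ℝ) / |v2| := by rwa [le_div_iff₀ h4, one_mul]
    have ht : |(E : ℝ) / |v2| * v1| ≤ E := by
      rw [abs_mul, abs_div, abs_abs, abs_of_pos hE, div_mul_eq_mul_div, div_le_iff₀ h4]
      exact mul_le_mul_of_nonneg_left h3 hE.le
    obtain ⟨t1, t2⟩ := abs_le.1 ht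
    rcases le_total 0 v2 with h6 | h6
    · have hv1 : (E : ℝ) / |v2| * v2 = E := by
        rw [abs_of_nonneg h6] at h4 ⊢
        field_simp
      obtain ⟨l, hl1, hl2, hl3⟩ := segOK_sound ws _ _ _ _ _ _ c3 ((E : ℝ) / |v2| * v1)
        (by push_cast; exact t1) t2
      refine ⟨l, hl1, hl2, fun w hw => scale_pos hm ?_⟩
      have := hl3 w hw
      unfold gqr at this
      rw [hv1]
      push_cast at this
      simpa using this
    · have hv1 : (E : ℝ) / |v2| * v2 = -E := by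
        rw [abs_of_nonpos h6] at h4 ⊢
        have : v2 ≠ 0 := by linarith
        field_simp
      obtain ⟨l, hl1, hl2, hl3⟩ := segOK_sound ws _ _ _ _ _ _ c4 ((E : ℝ) / |v2| * v1)
        (by push_cast; exact t1) t2
      refine ⟨l, hl1, hl2, fun w hw => scale_pos hm ?_⟩
      have := hl3 w hw
      unfold gqr at this
      rw [hv1]
      push_cast at this
      simpa using this

/-- the scaled position of a lattice point relative to the centre `(X, Y) / D` -/
def rel (D X Y : ℕ) (p : ℤ × ℤ) : ℤ × ℤ := ((D : ℤ) * p.1 - X, (D : ℤ) * p.2 - Y)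

/-- all points of the list lie on the circle -/
def onOK (N D X Y : ℕ) (bs : List (ℤ × ℤ)) : Bool :=
  bs.all fun p => decide ((rel D X Y p).1 * (rel D X Y p).1 +
    (rel D X Y p).2 * (rel D X Y p).2 = (N : ℤ))

theorem onOK_sound {N D X Y : ℕ} {bs : List (ℤ × ℤ)} (h : onOK N D X Y bs = true) {p : ℤ × ℤ}
    (hp : p ∈ bs) : (rel D X Y p).1 ^ 2 + (rel D X Y p).2 ^ 2 = (N : ℤ) := by
  unfold onOK at h
  rw [List.all_eq_true] at h
  have := h p hp
  rw [decide_eq_true_eq] at this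
  linarith

theorem local_le {N D M T0 X Y K need f : ℕ} {E : ℕ} (hD : 0 < D) (hX : X ≤ D)
    {bs : List (ℤ × ℤ)} (hnd : bs.Nodup) (hon : onOK N D X Y bs = true)
    (hloc : localOK (bs.map (rel D X Y)) E need f = true)
    (hK : K ≤ cellCount N D M T0 X Y E + need) {x y : ℝ}
    (hx : |(D : ℝ) * x - X| ≤ E) (hy : |(D : ℝ) * y - Y| ≤ E)
    (hne : ¬ ((D : ℝ) * x - X = 0 ∧ (D : ℝ) * y - Y = 0)) :
    (K : ℕ∞) ≤ cnt x y ((N : ℝ) / (D : ℝ) ^ 2) := by
  have hD' : (0 : ℝ) < D := by exact_mod_cast hD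
  obtain ⟨F, hF, hF'⟩ := cellCount_sound N D M T0 X Y E hX
  obtain ⟨l, hl1, hl2, hl3⟩ := localOK_sound hloc hne (by exact_mod_cast hx) (by exact_mod_cast hy)
  obtain ⟨l', hl', rfl⟩ := List.sublist_map_iff.1 hl1
  have hnd' : l'.Nodup := hnd.sublist hl'
  have hsub : ∀ p ∈ l', p ∈ bs := fun p hp => hl'.subset hp
  have hdisj : Disjoint F l'.toFinset := by
    rw [Finset.disjoint_left]
    intro p hp hp'
    rw [List.mem_toFinset] at hp'
    have h1 := onOK_sound hon (hsub p hp')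
    have h2 := hF' p hp
    unfold Safe at h2
    unfold rel at h1
    simp only at h1
    have h3 : ((D : ℤ) * p.1 - X) ^ 2 ≤ (|(D : ℤ) * p.1 - X| + E) ^ 2 := by
      rw [← sq_abs ((D : ℤ) * p.1 - X)]
      exact pow_le_pow_left₀ (abs_nonneg _) (by linarith [Int.natCast_nonneg E]) 2
    have h4 : ((D : ℤ) * p.2 - Y) ^ 2 ≤ (|(D : ℤ) * p.2 - Y| + E) ^ 2 := by
      rw [← sq_abs ((D : ℤ) * p.2 - Y)]
      exact pow_le_pow_left₀ (abs_nonneg _) (by linarith [Int.natCast_nonneg E]) 2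
    linarith
  have hcard : (F ∪ l'.toFinset).card = F.card + l'.length := by
    rw [Finset.card_union_of_disjoint hdisj, List.toFinset_card_of_nodup hnd']
  rw [List.length_map] at hl2
  calc (K : ℕ∞) ≤ ((F ∪ l'.toFinset).card : ℕ∞) := by
        rw [hcard, hF]
        exact_mod_cast hK.trans (by omega)
    _ = ((F ∪ l'.toFinset : Finset (ℤ × ℤ)) : Set (ℤ × ℤ)).encard :=
        (Set.encard_coe_eq_coe_finsetCard _).symm
    _ ≤ _ := by
        refine Set.encard_le_encard fun p hp => ?_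
        rw [Finset.mem_coe, Finset.mem_union, List.mem_toFinset] at hp
        rcases hp with hp | hp
        · exact (hF' p hp).mem hD hx hy
        · have h1 := onOK_sound hon (hsub p hp)
          have h2 := hl3 _ (List.mem_map_of_mem hp)
          unfold rel at h1 h2
          simp only at h1 h2
          have h1' : ((D : ℝ) * p.1 - X) ^ 2 + ((D : ℝ) * p.2 - Y) ^ 2 = N := by
            exact_mod_cast h1
          push_cast at h2
          rw [mem_S, lt_div_iff₀ (by positivity)]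
          nlinarith

theorem gap {N D M T0 K A f : ℕ} (hA : 0 < A) (hD : D = 4 * A) {cs : List (ℕ × ℕ × ℕ)}
    (h : bb N D M T0 K cs f A A A = true)
    (hcs : ∀ c ∈ cs, c.1 ≤ D ∧ ∃ (bs : List (ℤ × ℤ)) (need f' : ℕ), bs.Nodup ∧
      onOK N D c.1 c.2.1 bs = true ∧
      localOK (bs.map (rel D c.1 c.2.1)) (c.2.2 : ℕ) need f' = true ∧
      K ≤ cellCount N D M T0 c.1 c.2.1 c.2.2 + need) (x y : ℝ) :
    (K : ℕ∞) ≤ cnt x y ((N : ℝ) / (D : ℝ) ^ 2) ∨
      ∃ c ∈ cs, Same x y ((c.1 : ℝ) / D) ((c.2.1 : ℝ) / D) := by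
  have hD0 : 0 < D := by omega
  have hD' : (0 : ℝ) < D := by exact_mod_cast hD0
  obtain ⟨x', y', h1, h2, h3, h4⟩ := exists_reduced x y
  rw [h4]
  rcases bb_root hA hD h h1 h2 h3 with h5 | ⟨c, hc, hcx, hcy⟩
  · exact Or.inl h5
  · by_cases hne : (D : ℝ) * x' - c.1 = 0 ∧ (D : ℝ) * y' - c.2.1 = 0
    · right
      refine ⟨c, hc, ?_⟩
      have e1 : (c.1 : ℝ) / D = x' := by
        rw [div_eq_iff hD'.ne']; linarith [hne.1]
      have e2 : (c.2.1 : ℝ) / D = y' := by
        rw [div_eq_iff hD'.ne']; linarith [hne.2]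
      rw [e1, e2]
      exact h4
    · left
      obtain ⟨hcD, bs, need, f', g1, g2, g3, g4⟩ := hcs c hc
      exact local_le hD0 hcD g1 g2 g3 g4 hcx hcy hne

end Q262.Circ
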