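import Pool.Agent.Q262.Circ.Exact

/-!
Maximally circlable numbers: definitions and criteria.
-/

set_option autoImplicit false

namespace Q262.Circ

/-- The lattice points enclosed by the circle with centre `(x, y)` and radius `r`. -/
def enclosed (x y r : ℝ) : Set (ℤ × ℤ) :=
  {p | ((p.1 : ℝ) - x) ^ 2 + ((p.2 : ℝ) - y) ^ 2 < r ^ 2}

/-- The lattice points on the circle with centre `(x, y)` and radius `r`. -/
def onCircle (x y r : ℝ) : Set (ℤ × ℤ) :=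
  {p | ((p.1 : ℝ) - x) ^ 2 + ((p.2 : ℝ) - y) ^ 2 = r ^ 2}

/-- The circle with centre `(x, y)` and radius `r` is `n`-enclosing. -/
def Enclosing (n : ℕ) (x y r : ℝ) : Prop := 0 < r ∧ (enclosed x y r).encard = n

/-- The circle with centre `(x, y)` and radius `r` is an MC-circle of `n`: an `n`-enclosing
circle of largest radius. -/
def MCCircle (n : ℕ) (x y r : ℝ) : Prop :=
  Enclosing n x y r ∧ ∀ x' y' r' : ℝ, Enclosing n x' y' r' → r' ≤ r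

/-- `n` is maximally circlable: a largest `n`-enclosing circle exists. -/
def MC (n : ℕ) : Prop := ∃ x y r : ℝ, MCCircle n x y r

/-- `n` is a strong MC number. -/
def StrongMC (n : ℕ) : Prop := MC n ∧ ¬ MC (n + 1)

theorem enclosed_eq (x y r : ℝ) : enclosed x y r = S x y (r ^ 2) := rfl

theorem nonMC_of {n : ℕ} {ρ : ℝ} {cs : List (ℕ × ℕ × ℕ)} {D : ℕ}
    (hgap : ∀ x y : ℝ, ((n + 1 : ℕ) : ℕ∞) ≤ cnt x y ρ ∨
      ∃ c ∈ cs, Same x y ((c.1 : ℝ) / D) ((c.2.1 : ℝ) / D))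
    (hcs : ∀ c ∈ cs, cnt ((c.1 : ℝ) / D) ((c.2.1 : ℝ) / D) ρ ≠ (n : ℕ) ∧
      ∀ s, ρ < s → ((n + 1 : ℕ) : ℕ∞) ≤ cnt ((c.1 : ℝ) / D) ((c.2.1 : ℝ) / D) s)
    (happ : ∀ δ : ℝ, 0 < δ → ∃ x y s : ℝ, ρ - δ < s ∧ cnt x y s = (n : ℕ)) : ¬ MC n := by
  rintro ⟨x, y, r, ⟨hr, hn⟩, hmax⟩
  rw [enclosed_eq] at hn
  change cnt x y (r ^ 2) = (n : ℕ) at hn
  have hlt : ¬ ((n + 1 : ℕ) : ℕ∞) ≤ (n : ℕ) := by
    rw [Nat.cast_le]; omega
  have hrρ : r ^ 2 < ρ := by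
    by_contra h
    push Not at h
    have h1 : cnt x y ρ ≤ (n : ℕ) := by rw [← hn]; exact cnt_mono h
    rcases hgap x y with h2 | ⟨c, hc, hc'⟩
    · exact hlt (h2.trans h1)
    · obtain ⟨k1, k2⟩ := hcs c hc
      rcases h.eq_or_lt with h3 | h3
      · exact k1 (by rw [← hc', h3, hn])
      · have := k2 _ h3
        rw [← hc', hn] at this
        exact hlt this
  obtain ⟨x', y', s, hs, hcnt⟩ := happ (ρ - r ^ 2) (by linarith)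
  have hs' : r ^ 2 < s := by linarith
  have hs0 : 0 < s := lt_of_le_of_lt (sq_nonneg r) hs'
  have h1 := hmax x' y' (Real.sqrt s) ⟨Real.sqrt_pos.2 hs0, by
    rw [enclosed_eq, Real.sq_sqrt hs0.le]; exact hcnt⟩
  have h2 : s ≤ r ^ 2 := by
    rw [← Real.sq_sqrt hs0.le]
    exact pow_le_pow_left₀ (Real.sqrt_nonneg _) h1 2
  linarith

theorem isMax_of {n : ℕ} {ρ : ℝ} {cs : List (ℕ × ℕ × ℕ)} {D : ℕ}
    (hgap : ∀ x y : ℝ, ((n + 1 : ℕ) : ℕ∞) ≤ cnt x y ρ ∨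
      ∃ c ∈ cs, Same x y ((c.1 : ℝ) / D) ((c.2.1 : ℝ) / D))
    (hcs : ∀ c ∈ cs, ∀ s, ρ < s →
      ((n + 1 : ℕ) : ℕ∞) ≤ cnt ((c.1 : ℝ) / D) ((c.2.1 : ℝ) / D) s)
    {x0 y0 : ℝ} (hρ : 0 < ρ) (h0 : cnt x0 y0 ρ = (n : ℕ)) :
    MCCircle n x0 y0 (Real.sqrt ρ) := by
  refine ⟨⟨Real.sqrt_pos.2 hρ, by rw [enclosed_eq, Real.sq_sqrt hρ.le]; exact h0⟩, ?_⟩
  rintro x y r ⟨hr, hn⟩
  rw [enclosed_eq] at hn
  change cnt x y (r ^ 2) = (n : ℕ) at hn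
  have hlt : ¬ ((n + 1 : ℕ) : ℕ∞) ≤ (n : ℕ) := by
    rw [Nat.cast_le]; omega
  by_contra h
  push Not at h
  have h3 : ρ < r ^ 2 := by
    rw [← Real.sq_sqrt hρ.le]
    exact pow_lt_pow_left₀ h (Real.sqrt_nonneg _) two_ne_zero
  have h1 : cnt x y ρ ≤ (n : ℕ) := by rw [← hn]; exact cnt_mono h3.le
  rcases hgap x y with h2 | ⟨c, hc, hc'⟩
  · exact hlt (h2.trans h1)
  · have := hcs c hc _ h3
    rw [← hc', hn] at this
    exact hlt this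

/-- The exact data of a lattice circle with centre `(X, Y) / D` and squared radius `N / D²`. -/
structure Exact (N D X Y a b : ℕ) (bs : List (ℤ × ℤ)) : Prop where
  pos : 0 < D
  inner : (TS D X Y N).encard = (a : ℕ)
  bdry : ∀ p : ℤ × ℤ, ((D : ℤ) * p.1 - X) ^ 2 + ((D : ℤ) * p.2 - Y) ^ 2 = N ↔ p ∈ bs
  outer : (TS D X Y (N + 1)).encard = ((a + b : ℕ) : ℕ)
  nodup : bs.Nodup
  len : bs.length = b

theorem Exact.mk' {N D X Y a b M : ℕ} {bs : List (ℤ × ℤ)} (hD : 0 < D) (hX : X ≤ D) (hY : Y ≤ D)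
    (hNX : N + 1 ≤ (D * (M + 1) - X) * (D * (M + 1) - X))
    (hNY : N + 1 ≤ (D * (M + 1) - Y) * (D * (M + 1) - Y))
    (ha : boxCnt D (D * M + X) (D * M + Y) N (2 * M + 1) (2 * M + 1) 0 = a)
    (hb : boxCnt D (D * M + X) (D * M + Y) (N + 1) (2 * M + 1) (2 * M + 1) 0 = a + b)
    (hnd : bs.Nodup) (hon : onOK N D X Y bs = true) (hlen : bs.length = b) :
    Exact N D X Y a b bs := by
  have h1 : (TS D X Y N).encard = (a : ℕ) := by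
    rw [TS_encard (M := M) hX hY (by omega) (by omega), ha]
  have h2 : (TS D X Y (N + 1)).encard = ((a + b : ℕ) : ℕ) := by
    rw [TS_encard (M := M) hX hY hNX hNY, hb]
  exact ⟨hD, h1, boundary_eq hnd hon h1 h2 hlen, h2, hnd, hlen⟩

section

variable {N D X Y a b : ℕ} {bs : List (ℤ × ℤ)}

theorem Exact.cnt_eq (h : Exact N D X Y a b bs) :
    cnt ((X : ℝ) / D) ((Y : ℝ) / D) ((N : ℝ) / (D : ℝ) ^ 2) = (a : ℕ) := by
  rw [cnt, S_eq_TS h.pos, h.inner]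

theorem Exact.le_cnt (h : Exact N D X Y a b bs) {s : ℝ} (hs : (N : ℝ) / (D : ℝ) ^ 2 < s) :
    ((a + b : ℕ) : ℕ∞) ≤ cnt ((X : ℝ) / D) ((Y : ℝ) / D) s := by
  rw [← h.outer, cnt]
  exact Set.encard_le_encard (closed_sub h.pos hs)

theorem Exact.approach (h : Exact N D X Y a b bs) (V : ℤ × ℤ) (τ : ℤ) {δ : ℝ} (hδ : 0 < δ) :
    ∃ x y s : ℝ, (N : ℝ) / (D : ℝ) ^ 2 - δ < s ∧
      cnt x y s = ((a + sideCnt D X Y bs V τ : ℕ) : ℕ) := by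
  have hD' : (0 : ℝ) < D := by exact_mod_cast h.pos
  have hN0 : (0 : ℝ) ≤ N := Nat.cast_nonneg _
  set C : ℝ := 2 * (N + 1) * (|(V.1 : ℝ)| + |(V.2 : ℝ)| + |(τ : ℝ)| + 1) with hC
  have hC0 : 0 < C := by positivity
  set η : ℝ := δ * (D : ℝ) ^ 2 / (2 * (|(τ : ℝ)| + 1)) with hη
  have hη0 : 0 < η := by positivity
  set ε : ℝ := min (1 / C) η with hε
  have hε0 : 0 < ε := lt_min (by positivity) hη0
  have hε1 : ε * C ≤ 1 := by
    calc ε * C ≤ 1 / C * C := mul_le_mul_of_nonneg_right (min_le_left _ _) hC0.le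
      _ = 1 := by field_simp
  have hε2 : 2 * ε * |(τ : ℝ)| < δ * (D : ℝ) ^ 2 := by
    have h1 : ε * (2 * (|(τ : ℝ)| + 1)) ≤ δ * (D : ℝ) ^ 2 := by
      calc ε * (2 * (|(τ : ℝ)| + 1)) ≤ η * (2 * (|(τ : ℝ)| + 1)) :=
            mul_le_mul_of_nonneg_right (min_le_right _ _) (by positivity)
        _ = δ * (D : ℝ) ^ 2 := by rw [hη]; field_simp
    nlinarith [abs_nonneg (τ : ℝ)]
  refine ⟨(X + ε * V.1) / D, (Y + ε * V.2) / D,
    (N - 2 * ε * τ + ε ^ 2 * ((V.1 : ℝ) ^ 2 + (V.2 : ℝ) ^ 2)) / (D : ℝ) ^ 2, ?_, ?_⟩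
  rotate_left
  · rw [cnt, approach_set h.pos h.bdry V τ hε0 hε1, Set.encard_union_eq, h.inner,
      Set.encard_coe_eq_coe_finsetCard, List.toFinset_card_of_nodup (h.nodup.filter _)]
    · unfold sideCnt
      push_cast
      rfl
    · rw [Set.disjoint_left]
      intro q hq hq'
      change ((D : ℤ) * q.1 - X) ^ 2 + ((D : ℤ) * q.2 - Y) ^ 2 < N at hq
      rw [Finset.mem_coe, List.mem_toFinset, List.mem_filter, ← h.bdry] at hq'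
      linarith [hq'.1]
  · rw [sub_lt_iff_lt_add, ← sub_lt_iff_lt_add'] 
    have h1 : (N : ℝ) / (D : ℝ) ^ 2 - (N - 2 * ε * τ + ε ^ 2 * ((V.1 : ℝ) ^ 2 + (V.2 : ℝ) ^ 2)) /
        (D : ℝ) ^ 2 = (2 * ε * τ - ε ^ 2 * ((V.1 : ℝ) ^ 2 + (V.2 : ℝ) ^ 2)) / (D : ℝ) ^ 2 := by
      ring
    rw [h1, div_lt_iff₀ (by positivity)]
    have h2 : 0 ≤ ε ^ 2 * ((V.1 : ℝ) ^ 2 + (V.2 : ℝ) ^ 2) := by positivity
    have h3 : 2 * ε * (τ : ℝ) ≤ 2 * ε * |(τ : ℝ)| :=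
      mul_le_mul_of_nonneg_left (le_abs_self _) (by positivity)
    linarith

end

end Q262.Circ
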