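import Pool.Agent.Q262.Circ.Main

/-!
The lattice points on a lattice circle.
-/

set_option autoImplicit false

namespace Q262.Circ

theorem Exact.onCircle_eq {N D X Y a b : ℕ} {bs : List (ℤ × ℤ)} (h : Exact N D X Y a b bs) :
    onCircle ((X : ℝ) / D) ((Y : ℝ) / D) (Real.sqrt ((N : ℝ) / (D : ℝ) ^ 2)) =
      {p | p ∈ bs} := by
  have hD' : (0 : ℝ) < D := by exact_mod_cast h.pos
  ext p
  rw [Set.mem_ofPred_eq, ← h.bdry]
  unfold onCircle
  rw [Set.mem_ofPred_eq, Real.sq_sqrt (by positivity), eq_div_iff (by positivity)]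
  have e : (((p.1 : ℝ) - X / D) ^ 2 + ((p.2 : ℝ) - Y / D) ^ 2) * (D : ℝ) ^ 2 =
      ((((D : ℤ) * p.1 - X) ^ 2 + ((D : ℤ) * p.2 - Y) ^ 2 : ℤ) : ℝ) := by
    push_cast
    field_simp
  rw [e]
  norm_cast

end Q262.Circ
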