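import Pool.Agent.Q262.Circ.Basic
import Pool.Agent.Q262.Circ.Comp

/-!
Soundness of the branch and bound procedure.
-/

set_option autoImplicit false

namespace Q262.Circ

/-- `p` is enclosed by all circles of squared radius `N / D ^ 2` with centre in the cell. -/
def Safe (N D X Y H : ℕ) (p : ℤ × ℤ) : Prop :=
  (|(D : ℤ) * p.1 - X| + H) ^ 2 + (|(D : ℤ) * p.2 - Y| + H) ^ 2 < N

theorem colVal_sound (N D H Y u T : ℕ) :
    ∃ J : Finset ℤ, J.card = colVal N D H Y u T ∧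
      ∀ j ∈ J, (u : ℤ) ^ 2 + (|(D : ℤ) * j - Y| + H) ^ 2 < N := by
  unfold colVal
  by_cases hc : (Nat.blt (T * T + u * u) N && Nat.ble (H + Y) T) = true
  · rw [hc, cond_true]
    rw [Bool.and_eq_true, Nat.blt_eq, Nat.ble_eq] at hc
    obtain ⟨h1, h2⟩ := hc
    refine ⟨Finset.Icc (-(((T - H - Y) / D : ℕ) : ℤ)) (((T - H + Y) / D : ℕ) : ℤ), ?_, ?_⟩
    · rw [Int.card_Icc]
      generalize (T - H - Y) / D = a
      generalize (T - H + Y) / D = b
      omega
    · intro j hj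
      rw [Finset.mem_Icc] at hj
      obtain ⟨hj1, hj2⟩ := hj
      have e1 : D * ((T - H - Y) / D) ≤ T - H - Y := Nat.mul_div_le _ _
      have e2 : D * ((T - H + Y) / D) ≤ T - H + Y := Nat.mul_div_le _ _
      have e3 : (D : ℤ) * j ≤ D * (((T - H + Y) / D : ℕ) : ℤ) :=
        mul_le_mul_of_nonneg_left hj2 (by positivity)
      have e4 : (D : ℤ) * (-(((T - H - Y) / D : ℕ) : ℤ)) ≤ D * j :=
        mul_le_mul_of_nonneg_left hj1 (by positivity)
      have e5 : (D : ℤ) * (((T - H - Y) / D : ℕ) : ℤ) ≤ ((T - H - Y : ℕ) : ℤ) := by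
        exact_mod_cast e1
      have e6 : (D : ℤ) * (((T - H + Y) / D : ℕ) : ℤ) ≤ ((T - H + Y : ℕ) : ℤ) := by
        exact_mod_cast e2
      have e7 : ((T - H - Y : ℕ) : ℤ) = T - H - Y := by omega
      have e8 : ((T - H + Y : ℕ) : ℤ) = T - H + Y := by omega
      have e9 : |(D : ℤ) * j - Y| + H ≤ T := by
        have : |(D : ℤ) * j - Y| ≤ T - H := abs_le.2 ⟨by linarith, by linarith⟩
        linarith
      have e10 : (|(D : ℤ) * j - Y| + H) ^ 2 ≤ (T : ℤ) ^ 2 :=
        pow_le_pow_left₀ (by positivity) e9 2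
      have e11 : (T : ℤ) * T + u * u < N := by exact_mod_cast h1
      nlinarith
  · rw [Bool.not_eq_true] at hc
    rw [hc, cond_false]
    exact ⟨∅, rfl, by simp⟩

theorem loop_succ (N D H Y f u T acc : ℕ) :
    loop N D H Y (f + 1) u T acc =
      loop N D H Y f (u + D) (nwt (N - u * u - 1) 12 T)
        (acc + colVal N D H Y u (nwt (N - u * u - 1) 12 T)) := by
  have h : loop N D H Y (f + 1) u T acc =
      force (nwt (N - u * u - 1) 12 T) fun T' =>
      force (acc + colVal N D H Y u T') fun acc' =>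
      force (u + D) fun u' => loop N D H Y f u' T' acc' := rfl
  rw [h]
  simp only [force_eq]

theorem loop_eq (N D H Y : ℕ) (f : ℕ) : ∀ u T acc : ℕ, ∃ τ : ℕ → ℕ,
    loop N D H Y f u T acc =
      acc + ∑ k ∈ Finset.range f, colVal N D H Y (u + k * D) (τ k) := by
  induction f with
  | zero => intro u T acc; exact ⟨fun _ => 0, by simp [loop]⟩
  | succ f ih =>
    intro u T acc
    have h := loop_succ N D H Y f u T acc
    obtain ⟨τ, hτ⟩ := ih (u + D) (nwt (N - u * u - 1) 12 T)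
      (acc + colVal N D H Y u (nwt (N - u * u - 1) 12 T))
    refine ⟨fun k => Nat.casesOn k (nwt (N - u * u - 1) 12 T) τ, ?_⟩
    rw [h, hτ, Finset.sum_range_succ']
    simp only [Nat.zero_mul, Nat.add_zero]
    rw [add_assoc]
    congr 1
    rw [add_comm]
    congr 1
    refine Finset.sum_congr rfl fun k _ => ?_
    rw [show u + D + k * D = u + (k + 1) * D by ring]

theorem cols_sound (N D X Y H : ℕ) (τ : ℕ → ℕ) (u : ℕ) (e : ℕ → ℤ)
    (he : Function.Injective e) (f : ℕ)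
    (hu : ∀ k, |(D : ℤ) * e k - X| + H ≤ ((u + k * D : ℕ) : ℤ)) :
    ∃ F : Finset (ℤ × ℤ),
      F.card = ∑ k ∈ Finset.range f, colVal N D H Y (u + k * D) (τ k) ∧
      ∀ p ∈ F, Safe N D X Y H p ∧ ∃ k, k < f ∧ p.1 = e k := by
  induction f with
  | zero => exact ⟨∅, by simp, by simp⟩
  | succ f ih =>
    obtain ⟨F, hF1, hF2⟩ := ih
    obtain ⟨J, hJ1, hJ2⟩ := colVal_sound N D H Y (u + f * D) (τ f)
    let g : ℤ ↪ ℤ × ℤ := ⟨fun j => (e f, j), fun a b hab => (Prod.ext_iff.1 hab).2⟩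
    have hdisj : Disjoint F (J.map g) := by
      rw [Finset.disjoint_left]
      intro p hp hp'
      obtain ⟨_, k, hk, hk'⟩ := hF2 p hp
      obtain ⟨j, _, hj⟩ := Finset.mem_map.1 hp'
      have h1 : p.1 = e f := by rw [← hj]; rfl
      exact hk.ne (he (hk'.symm.trans h1))
    refine ⟨F.disjUnion (J.map g) hdisj, ?_, ?_⟩
    · rw [Finset.card_disjUnion, Finset.card_map, hF1, hJ1, Finset.sum_range_succ]
    · intro p hp
      rw [Finset.mem_disjUnion] at hp
      rcases hp with hp | hp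
      · obtain ⟨h1, k, hk, hk'⟩ := hF2 p hp
        exact ⟨h1, k, hk.trans (Nat.lt_succ_self f), hk'⟩
      · obtain ⟨j, hj, rfl⟩ := Finset.mem_map.1 hp
        refine ⟨?_, f, Nat.lt_succ_self f, rfl⟩
        have h1 := hJ2 j hj
        have h2 := hu f
        have h3 : (|(D : ℤ) * e f - X| + H) ^ 2 ≤ ((u + f * D : ℕ) : ℤ) ^ 2 :=
          pow_le_pow_left₀ (by positivity) h2 2
        change (|(D : ℤ) * e f - X| + H) ^ 2 + (|(D : ℤ) * j - Y| + H) ^ 2 < N
        linarith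

theorem cellCount_sound (N D M T0 X Y H : ℕ) (hX : X ≤ D) :
    ∃ F : Finset (ℤ × ℤ), F.card = cellCount N D M T0 X Y H ∧
      ∀ p ∈ F, Safe N D X Y H p := by
  obtain ⟨τ1, h1⟩ := loop_eq N D H Y M (D + H - X) T0 0
  obtain ⟨τ2, h2⟩ := loop_eq N D H Y (M + 1) (X + H) T0
    (loop N D H Y M (D + H - X) T0 0)
  obtain ⟨F1, hF1, hF1'⟩ := cols_sound N D X Y H τ1 (D + H - X) (fun k => (k : ℤ) + 1)
    (fun a b hab => by simpa using hab) M (by
      intro k
      have e1 : ((D + H - X + k * D : ℕ) : ℤ) = D + H - X + k * D := by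
        push_cast [Nat.cast_sub (show X ≤ D + H by omega)]
        ring
      have e2 : (0 : ℤ) ≤ (D : ℤ) * ((k : ℤ) + 1) - X := by
        have : (X : ℤ) ≤ D := by exact_mod_cast hX
        nlinarith [mul_nonneg (Int.natCast_nonneg D) (Int.natCast_nonneg k)]
      rw [e1, abs_of_nonneg e2]
      linarith)
  obtain ⟨F2, hF2, hF2'⟩ := cols_sound N D X Y H τ2 (X + H) (fun k => -(k : ℤ))
    (fun a b hab => by simpa using hab) (M + 1) (by
      intro k
      have e2 : (D : ℤ) * (-(k : ℤ)) - X ≤ 0 := by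
        nlinarith [mul_nonneg (Int.natCast_nonneg D) (Int.natCast_nonneg k),
          Int.natCast_nonneg X]
      rw [abs_of_nonpos e2]
      push_cast
      linarith)
  have hdisj : Disjoint F2 F1 := by
    rw [Finset.disjoint_left]
    intro p hp hp'
    obtain ⟨_, k, _, hk⟩ := hF2' p hp
    obtain ⟨_, l, _, hl⟩ := hF1' p hp'
    omega
  refine ⟨F2.disjUnion F1 hdisj, ?_, ?_⟩
  · rw [Finset.card_disjUnion, hF1, hF2]
    unfold cellCount
    simp only [force_eq]
    rw [h2, h1]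
    ring
  · intro p hp
    rw [Finset.mem_disjUnion] at hp
    rcases hp with hp | hp
    · exact (hF2' p hp).1
    · exact (hF1' p hp).1

theorem Safe.mem {N D X Y H : ℕ} (hD : 0 < D) {p : ℤ × ℤ} (h : Safe N D X Y H p) {x y : ℝ}
    (hx : |(D : ℝ) * x - X| ≤ H) (hy : |(D : ℝ) * y - Y| ≤ H) :
    p ∈ S x y ((N : ℝ) / (D : ℝ) ^ 2) := by
  have hD' : (0 : ℝ) < D := by exact_mod_cast hD
  rw [mem_S, lt_div_iff₀ (by positivity)]
  have h1 : (|(D : ℝ) * p.1 - X| + H) ^ 2 + (|(D : ℝ) * p.2 - Y| + H) ^ 2 < N := by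
    have h2 := h
    unfold Safe at h2
    exact_mod_cast h2
  have h3 : |(D : ℝ) * p.1 - D * x| ≤ |(D : ℝ) * p.1 - X| + H := by
    calc |(D : ℝ) * p.1 - D * x| = |((D : ℝ) * p.1 - X) - (D * x - X)| := by ring_nf
      _ ≤ |(D : ℝ) * p.1 - X| + |(D : ℝ) * x - X| := abs_sub _ _
      _ ≤ _ := by linarith
  have h4 : |(D : ℝ) * p.2 - D * y| ≤ |(D : ℝ) * p.2 - Y| + H := by
    calc |(D : ℝ) * p.2 - D * y| = |((D : ℝ) * p.2 - Y) - (D * y - Y)| := by ring_nf
      _ ≤ |(D : ℝ) * p.2 - Y| + |(D : ℝ) * y - Y| := abs_sub _ _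
      _ ≤ _ := by linarith
  have h5 : ((D : ℝ) * p.1 - D * x) ^ 2 ≤ (|(D : ℝ) * p.1 - X| + H) ^ 2 := by
    rw [← sq_abs ((D : ℝ) * p.1 - D * x)]
    exact pow_le_pow_left₀ (abs_nonneg _) h3 2
  have h6 : ((D : ℝ) * p.2 - D * y) ^ 2 ≤ (|(D : ℝ) * p.2 - Y| + H) ^ 2 := by
    rw [← sq_abs ((D : ℝ) * p.2 - D * y)]
    exact pow_le_pow_left₀ (abs_nonneg _) h4 2
  calc (((p.1 : ℝ) - x) ^ 2 + ((p.2 : ℝ) - y) ^ 2) * (D : ℝ) ^ 2
      = ((D : ℝ) * p.1 - D * x) ^ 2 + ((D : ℝ) * p.2 - D * y) ^ 2 := by ring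
    _ < (N : ℝ) := by linarith

theorem cell_le {N D M T0 X Y H : ℕ} (hD : 0 < D) (hX : X ≤ D) {x y : ℝ}
    (hx : |(D : ℝ) * x - X| ≤ H) (hy : |(D : ℝ) * y - Y| ≤ H) :
    (cellCount N D M T0 X Y H : ℕ∞) ≤ cnt x y ((N : ℝ) / (D : ℝ) ^ 2) := by
  obtain ⟨F, hF, hF'⟩ := cellCount_sound N D M T0 X Y H hX
  rw [← hF, cnt, ← Set.encard_coe_eq_coe_finsetCard]
  exact Set.encard_le_encard fun p hp => (hF' p hp).mem hD hx hy

/-- The point `(x, y)` lies in one of the special boxes. -/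
def InCs (D : ℕ) (cs : List (ℕ × ℕ × ℕ)) (x y : ℝ) : Prop :=
  ∃ c ∈ cs, |(D : ℝ) * x - c.1| ≤ c.2.2 ∧ |(D : ℝ) * y - c.2.1| ≤ c.2.2

theorem bb_succ (N D M T0 K : ℕ) (cs : List (ℕ × ℕ × ℕ)) (f X Y H : ℕ) :
    bb N D M T0 K cs (f + 1) X Y H =
      cond (Nat.blt (X + 2 * H) Y) true
      (cond (cs.any (inBox X Y H)) true
      (cond (Nat.ble K (cellCount N D M T0 X Y H)) true
      (cond (Nat.beq (2 * (H / 2)) H)
          (bb N D M T0 K cs f (X - H / 2) (Y - H / 2) (H / 2) &&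
          (bb N D M T0 K cs f (X - H / 2) (Y + H / 2) (H / 2) &&
          (bb N D M T0 K cs f (X + H / 2) (Y - H / 2) (H / 2) &&
          bb N D M T0 K cs f (X + H / 2) (Y + H / 2) (H / 2)))) false))) := by
  have h : bb N D M T0 K cs (f + 1) X Y H =
      cond (Nat.blt (X + 2 * H) Y) true
      (cond (cs.any (inBox X Y H)) true
      (cond (Nat.ble K (cellCount N D M T0 X Y H)) true
      (force (H / 2) fun h =>
        cond (Nat.beq (2 * h) H)
          (force (X - h) fun X1 => force (X + h) fun X2 =>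
           force (Y - h) fun Y1 => force (Y + h) fun Y2 =>
            (bb N D M T0 K cs f X1 Y1 h && (bb N D M T0 K cs f X1 Y2 h &&
              (bb N D M T0 K cs f X2 Y1 h && bb N D M T0 K cs f X2 Y2 h))))
          false))) := rfl
  rw [h]
  simp only [force_eq]

theorem bb_sound (N D M T0 K : ℕ) (hD : 0 < D) (cs : List (ℕ × ℕ × ℕ)) (f : ℕ) :
    ∀ X Y H : ℕ, H ≤ X → H ≤ Y → X + H ≤ D → bb N D M T0 K cs f X Y H = true →
      ∀ x y : ℝ, |(D : ℝ) * x - X| ≤ H → |(D : ℝ) * y - Y| ≤ H → y ≤ x →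
        (K : ℕ∞) ≤ cnt x y ((N : ℝ) / (D : ℝ) ^ 2) ∨ InCs D cs x y := by
  induction f with
  | zero => intro X Y H _ _ _ h; exact absurd h (by simp [bb])
  | succ f ih =>
    intro X Y H hX hY hXD h x y hx hy hyx
    have hD' : (0 : ℝ) < D := by exact_mod_cast hD
    rw [bb_succ] at h
    by_cases c1 : Nat.blt (X + 2 * H) Y = true
    · exfalso
      rw [Nat.blt_eq] at c1
      have c1' : (X : ℝ) + 2 * H < Y := by exact_mod_cast c1
      have := (abs_le.1 hx).2
      have := (abs_le.1 hy).1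
      have := mul_le_mul_of_nonneg_left hyx hD'.le
      linarith
    rw [Bool.not_eq_true] at c1
    rw [c1, cond_false] at h
    by_cases c2 : cs.any (inBox X Y H) = true
    · right
      rw [List.any_eq_true] at c2
      obtain ⟨c, hc, hc'⟩ := c2
      refine ⟨c, hc, ?_⟩
      unfold inBox at hc'
      simp only [Bool.and_eq_true, Nat.ble_eq] at hc'
      obtain ⟨⟨⟨a1, a2⟩, a3⟩, a4⟩ := hc'
      have b1 : (X : ℝ) + H ≤ c.1 + c.2.2 := by exact_mod_cast a1
      have b2 : (c.1 : ℝ) + H ≤ X + c.2.2 := by exact_mod_cast a2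
      have b3 : (Y : ℝ) + H ≤ c.2.1 + c.2.2 := by exact_mod_cast a3
      have b4 : (c.2.1 : ℝ) + H ≤ Y + c.2.2 := by exact_mod_cast a4
      have := abs_le.1 hx
      have := abs_le.1 hy
      exact ⟨abs_le.2 ⟨by linarith, by linarith⟩, abs_le.2 ⟨by linarith, by linarith⟩⟩
    rw [Bool.not_eq_true] at c2
    rw [c2, cond_false] at h
    by_cases c3 : Nat.ble K (cellCount N D M T0 X Y H) = true
    · left
      rw [Nat.ble_eq] at c3
      calc (K : ℕ∞) ≤ (cellCount N D M T0 X Y H : ℕ∞) := by exact_mod_cast c3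
        _ ≤ _ := cell_le hD (by omega) hx hy
    rw [Bool.not_eq_true] at c3
    rw [c3, cond_false] at h
    by_cases c4 : Nat.beq (2 * (H / 2)) H = true
    · rw [c4, cond_true] at h
      replace c4 := Nat.eq_of_beq_eq_true c4
      simp only [Bool.and_eq_true] at h
      obtain ⟨h1, h2, h3, h4⟩ := h
      set g := H / 2 with hg
      have hHr : (H : ℝ) = 2 * g := by exact_mod_cast c4.symm
      have hXs : ((X - g : ℕ) : ℝ) = X - g := by rw [Nat.cast_sub (by omega)]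
      have hYs : ((Y - g : ℕ) : ℝ) = Y - g := by rw [Nat.cast_sub (by omega)]
      have hx' := abs_le.1 hx
      have hy' := abs_le.1 hy
      rcases le_total ((D : ℝ) * x) X with hxx | hxx
      · have qx : |(D : ℝ) * x - (X - g : ℕ)| ≤ g := by
          rw [hXs]; exact abs_le.2 ⟨by linarith, by linarith⟩
        rcases le_total ((D : ℝ) * y) Y with hyy | hyy
        · have qy : |(D : ℝ) * y - (Y - g : ℕ)| ≤ g := by
            rw [hYs]; exact abs_le.2 ⟨by linarith, by linarith⟩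
          exact ih _ _ _ (by omega) (by omega) (by omega) h1 x y qx qy hyx
        · have qy : |(D : ℝ) * y - (Y + g : ℕ)| ≤ g := by
            push_cast; exact abs_le.2 ⟨by linarith, by linarith⟩
          exact ih _ _ _ (by omega) (by omega) (by omega) h2 x y qx qy hyx
      · have qx : |(D : ℝ) * x - (X + g : ℕ)| ≤ g := by
          push_cast; exact abs_le.2 ⟨by linarith, by linarith⟩
        rcases le_total ((D : ℝ) * y) Y with hyy | hyy
        · have qy : |(D : ℝ) * y - (Y - g : ℕ)| ≤ g := by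
            rw [hYs]; exact abs_le.2 ⟨by linarith, by linarith⟩
          exact ih _ _ _ (by omega) (by omega) (by omega) h3 x y qx qy hyx
        · have qy : |(D : ℝ) * y - (Y + g : ℕ)| ≤ g := by
            push_cast; exact abs_le.2 ⟨by linarith, by linarith⟩
          exact ih _ _ _ (by omega) (by omega) (by omega) h4 x y qx qy hyx
    · rw [Bool.not_eq_true] at c4
      rw [c4, cond_false] at h
      exact absurd h (by simp)

theorem bb_root {N D M T0 K A : ℕ} (hA : 0 < A) (hD : D = 4 * A) {cs : List (ℕ × ℕ × ℕ)}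
    {f : ℕ} (h : bb N D M T0 K cs f A A A = true) {x y : ℝ} (hy : 0 ≤ y) (hyx : y ≤ x)
    (hx : x ≤ 1 / 2) :
    (K : ℕ∞) ≤ cnt x y ((N : ℝ) / (D : ℝ) ^ 2) ∨ InCs D cs x y := by
  have hA' : (0 : ℝ) < A := by exact_mod_cast hA
  have hDr : (D : ℝ) = 4 * A := by rw [hD]; push_cast; ring
  refine bb_sound N D M T0 K (by omega) cs f A A A le_rfl le_rfl (by omega) h x y ?_ ?_ hyx
  · rw [hDr]; exact abs_le.2 ⟨by nlinarith, by nlinarith⟩
  · rw [hDr]; exact abs_le.2 ⟨by nlinarith, by nlinarith⟩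

end Q262.Circ
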